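import Pool.Agent.Helper60.TS.SB2C

/-!
# Set B2 of the column `b`: the far cell has kind B for both classes
-/

set_option autoImplicit false

namespace Pool.Agent.Helper60.TS

open Pool.Agent.Helper83.Cert Pool.Agent.Helper83.TS Pool.Agent.Helper53.TT
  Pool.Agent.Helper74.TS Pool.Agent.Helper20.TS

theorem wb2_comm (x y z : ℝ) : TallB.wb2 x y z = TallB.wb2 y x z := by
  unfold TallB.wb2
  ring

/-- the other multiplier reduced -/
theorem g2_aux {x y z : ℝ} (hb : Bd x y z) :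
    GB (TallB.n1 x) x (TallB.n1 y - TallB.k12 x y) y (TallB.la x) (TallB.la y) (TallB.n3 z) z
      (TallB.wb2 x y z) :=
  gB_of hb (dnx ..) ((dny ..).sub (dkk ..)) (dlx ..) (dly ..) (dnz ..) (dw2 ..) ckG2

/-- **Set B2** of the column `b` -/
theorem sB2 {x y z : ℝ} (hb : Bd x y z) :
    SB2 (TallB.n1 x - TallB.k12 x y) x (TallB.n1 y) y (TallB.la x) (TallB.la y) (TallB.n3 z) z
      (TallB.wb2 x y z) where
  n0 := by
    unfold TallB.n3
    linarith [hb.z1]
  m1 := by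
    unfold TallB.n1 TallB.k12 TallB.la
    nlinarith [mul_nonneg hb.x0 hb.y0, hb.x1, hb.y0]
  m2 := by
    unfold TallB.n1 TallB.la
    linarith [hb.y1]
  p := by
    intro w A B u v hF hf u0 u1 ua v0 v1 va
    have key : ∀ k : ℕ, Ck (gPB k) (pPB k) → kv k w A B →
        st (TallB.n1 x - TallB.k12 x y) x u + TallB.la x * (1 + w - A - B - u)
          + st (TallB.n1 y) y v + TallB.la y * (1 + w - A - B - v) + ra (TallB.n3 z) z w
          + vl w A B ≤ TallB.wb2 x y z := fun k ck hk =>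
      pB_of hb ((dnx ..).sub (dkk ..)) (dny ..) (dlx ..) (dly ..) (dnz ..) (dw2 ..) ck hF hf hk
        u0 u1 ua v0 v1 va
    rcases le_total A w with hA | hA
    · rcases le_total B w with hB | hB
      · exact key 4 ckP4 ⟨hA, hB⟩
      · exact key 2 ckP2 ⟨hA, hB⟩
    · rcases le_total B w with hB | hB
      · exact key 3 ckP3 ⟨hB, hA⟩
      · exact key 1 ckP1 ⟨hA, hB⟩
  g1 := gB_of hb ((dnx ..).sub (dkk ..)) (dny ..) (dlx ..) (dly ..) (dnz ..) (dw2 ..) ckG1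
  g2 := by
    have h := g2_aux (x := y) (y := x) (z := z) ⟨hb.y0, hb.x0, hb.z0, hb.y1, hb.x1, hb.z1⟩
    rw [TallB.k12_comm y x, wb2_comm y x z] at h
    exact h

/-- the form of `caseOneTall_of_cert` -/
theorem sB2' (x y z : ℝ) (x0 : 0 ≤ x) (x1 : x ≤ 3 / 5) (y0 : 0 ≤ y) (y1 : y ≤ 3 / 5) (z0 : 0 ≤ z)
    (z1 : z ≤ 3 / 5) :
    SB2 (TallB.n1 x - TallB.k12 x y) x (TallB.n1 y) y (TallB.la x) (TallB.la y) (TallB.n3 z) z
      (TallB.wb2 x y z) :=
  sB2 ⟨x0, y0, z0, x1, y1, z1⟩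

end Pool.Agent.Helper60.TS
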