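import Pool.Agent.Helper60.TS.SB2L

/-!
# Set B2 of the column `b`: the certificates
-/

set_option autoImplicit false
set_option maxRecDepth 100000

namespace Pool.Agent.Helper60.TS

open Pool.Agent.Helper83.Cert Pool.Agent.Helper83.TS Pool.Agent.Helper20.TS


theorem ckP1 : Ck (gPB 1) (pPB 1) :=
  .mk' 500000 (.add (.add (.add (.add (.add (.mul (.pp [(1, 4507230)]) (.sq [(1, -65), (2, 8), (3, -25), (5,
    51), (7, -1), (13, 8), (17, 100), (19, -20), (23, -1)])) (.mul (.pp [(1, 3983940)]) (.sq [(1, 56),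
    (2, -23), (3, 7), (5, 100), (7, -44), (13, 7), (17, -16), (19, -21), (23, -36)]))) (.add (.mul
    (.pp [(1, 2830050)]) (.sq [(1, 1), (2, 46), (3, 51), (5, 13), (7, -1), (13, -100), (17, 13), (19,
    7), (23, -7)])) (.add (.mul (.g 6) (.add (.add (.add (.add (.mul (.pp [(1, 77040)]) (.sq [(2,
    100), (3, 61), (5, 8), (7, 80), (13, -38), (17, 10), (19, -81), (23, -22)])) (.mul (.pp [(1,
    2263080)]) (.sq [(1, -4), (2, -61), (3, 42), (5, 100), (7, 8), (13, -43), (17, 10), (19, 8), (23,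
    6)]))) (.add (.mul (.pp [(1, 239880)]) (.sq [(2, 79), (3, 40), (5, -38), (7, -19), (13, 81), (17,
    58), (19, 24), (23, -100)])) (.mul (.pp [(1, 1609740)]) (.sq [(1, 8), (2, 99), (3, 100), (5, -14),
    (7, -43), (13, 13), (17, -69), (19, 61), (23, -40)])))) (.add (.add (.mul (.pp [(1, 256050)]) (.sq
    [(2, -70), (3, -8), (5, -11), (7, 100), (13, -11), (17, -39), (19, -76), (23, -1)])) (.mul (.pp
    [(1, 984510)]) (.sq [(1, 18), (2, 77), (3, -55), (5, 22), (7, 3), (13, -100), (17, 92), (19, 13),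
    (23, -77)]))) (.add (.mul (.pp [(1, 2355780)]) (.sq [(2, -18), (3, 62), (5, -100), (7, -78), (13,
    -58), (17, 4), (19, 85), (23, 39)])) (.add (.mul (.pp [(1, 170760)]) (.sq [(2, -3), (3, -63), (5,
    20), (7, 29), (13, -74), (17, -9), (19, 84), (23, -100)])) (.mul (.g 18) (.add (.add (.pp [(1,
    48178200000)]) (.add (.mul (.g 7) (.pp [(1, 62249400000)])) (.mul (.g 9) (.pp [(1,
    20365200000)])))) (.add (.mul (.g 11) (.pp [(1, 27696300000)])) (.add (.mul (.g 16) (.pp [(1,
    86776200000)])) (.mul (.g 21) (.pp [(1, 11734560000)])))))))))) (.add (.add (.add (.mul (.g 17)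
    (.add (.add (.mul (.g 2) (.pp [(1, 1459800000)])) (.mul (.g 5) (.pp [(1, 36433200000)]))) (.add
    (.mul (.g 8) (.pp [(1, 18978900000)])) (.add (.mul (.g 12) (.pp [(1, 19891200000)])) (.mul (.g 20)
    (.pp [(1, 4078800000)])))))) (.mul (.g 6) (.add (.add (.pp [(1, 3992700000)]) (.mul (.g 0) (.pp
    [(1, 2913330000)]))) (.add (.mul (.g 7) (.pp [(1, 14898000000)])) (.mul (.g 16) (.pp [(1,
    4859100000)])))))) (.add (.mul (.g 0) (.add (.mul (.g 15) (.pp [(1, 366435000)])) (.mul (.g 21)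
    (.pp [(1, 1983147000)])))) (.add (.mul (.g 2) (.add (.mul (.g 5) (.pp [(1, 7385700000)])) (.mul
    (.g 9) (.pp [(1, 1218600000)])))) (.mul (.g 8) (.add (.mul (.g 9) (.pp [(1, 23582700000)])) (.mul
    (.g 13) (.pp [(1, 16569900000)]))))))) (.add (.add (.mul (.g 11) (.add (.mul (.g 13) (.pp [(1,
    10801200000)])) (.mul (.g 16) (.pp [(1, 29741100000)])))) (.mul (.g 5) (.pp [(1, 33936600000)])))
    (.add (.mul (.g 7) (.mul (.g 20) (.pp [(1, 5017320000)]))) (.add (.mul (.g 10) (.pp [(1,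
    10742400000)])) (.mul (.g 19) (.pp [(1, 5319600000)])))))))) (.mul (.g 5) (.add (.add (.add (.add
    (.mul (.pp [(1, 1677810)]) (.sq [(1, 1), (2, -69), (3, -17), (5, 35), (7, 1), (13, 100), (17,
    -23), (19, 17), (23, -30)])) (.mul (.pp [(1, 1600260)]) (.sq [(2, 3), (3, -29), (5, -63), (7, -2),
    (13, 21), (17, -100), (19, 96), (23, 12)]))) (.add (.mul (.pp [(1, 258900)]) (.sq [(1, 41), (2,
    -20), (3, -62), (5, 100), (7, 25), (13, -56), (17, 14), (19, -17), (23, -7)])) (.mul (.pp [(1,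
    413640)]) (.sq [(2, 7), (3, -22), (13, 50), (17, -41), (19, -13), (23, 19)])))) (.add (.add (.mul
    (.pp [(1, 361380)]) (.sq [(1, -15), (2, 100), (3, 34), (5, 42), (7, -1), (13, -8), (17, -62), (19,
    66), (23, 15)])) (.mul (.pp [(1, 852840)]) (.sq [(1, -8), (2, -25), (3, -11), (5, -57), (7, -10),
    (13, -42), (17, 25), (19, 100), (23, -13)]))) (.add (.mul (.pp [(1, 698940)]) (.sq [(2, -2), (3,
    -12), (5, 3), (7, 78), (13, -100), (17, -1), (19, 9), (23, 98)])) (.mul (.pp [(1, 2636250)]) (.sq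
    [(2, 100), (3, 21), (5, 76), (7, 12), (13, -73), (19, 18), (23, -73)]))))) (.add (.add (.add (.mul
    (.pp [(1, 2059440)]) (.sq [(2, 12), (3, 46), (5, -56), (7, 31), (13, -7), (17, 12), (19, -1), (23,
    -100)])) (.mul (.g 0) (.add (.add (.pp [(1, 10954410000)]) (.mul (.g 3) (.pp [(1, 10807905000)])))
    (.add (.mul (.g 17) (.pp [(1, 1399785000)])) (.mul (.g 21) (.pp [(1, 2262561000)])))))) (.add
    (.mul (.g 18) (.add (.pp [(1, 63141000000)]) (.add (.mul (.g 4) (.pp [(1, 846900000)])) (.mul (.g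
    20) (.pp [(1, 4213440000)]))))) (.mul (.g 10) (.add (.pp [(1, 29693400000)]) (.mul (.g 11) (.pp
    [(1, 6925500000)])))))) (.add (.add (.mul (.g 12) (.add (.pp [(1, 30244500000)]) (.mul (.g 17)
    (.pp [(1, 16543200000)])))) (.mul (.g 13) (.add (.mul (.g 11) (.pp [(1, 29727600000)])) (.mul (.g
    16) (.pp [(1, 42787500000)]))))) (.add (.mul (.g 7) (.pp [(1, 68427900000)])) (.add (.mul (.g 16)
    (.mul (.g 17) (.pp [(1, 10794000000)]))) (.mul (.g 19) (.mul (.g 20) (.pp [(1,
    593952000)])))))))))))) (.add (.add (.mul (.g 7) (.add (.add (.add (.mul (.pp [(1, 2328540)]) (.sq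
    [(2, 4), (3, 66), (5, -35), (7, -61), (13, -100), (17, -18), (19, 43), (23, 64)])) (.mul (.pp [(1,
    386460)]) (.sq [(2, -20), (3, -6), (5, -83), (7, 90), (13, 70), (17, -23), (19, -100), (23,
    90)]))) (.add (.mul (.pp [(1, 4453980)]) (.sq [(2, 100), (3, 32), (5, 21), (7, 32), (13, -34),
    (17, 31), (19, -7), (23, -37)])) (.add (.mul (.pp [(1, 1177560)]) (.sq [(2, 43), (3, -42), (5,
    -75), (7, 37), (13, 15), (17, -80), (19, 100), (23, -30)])) (.mul (.pp [(1, 1215120)]) (.sq [(2,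
    39), (3, -3), (5, 100), (7, 61), (13, -68), (17, -13), (19, -52), (23, 31)]))))) (.add (.add (.mul
    (.g 7) (.add (.add (.pp [(1, 62173500000)]) (.mul (.g 2) (.pp [(1, 12169800000)]))) (.add (.mul
    (.g 8) (.pp [(1, 30915000000)])) (.add (.mul (.g 13) (.pp [(1, 11506200000)])) (.mul (.g 16) (.pp
    [(1, 46019100000)])))))) (.add (.mul (.g 18) (.add (.add (.pp [(1, 46471800000)]) (.mul (.g 1)
    (.pp [(1, 188851200000)]))) (.add (.mul (.g 16) (.pp [(1, 4422300000)])) (.mul (.g 18) (.pp [(1,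
    10045200000)]))))) (.mul (.g 0) (.add (.mul (.g 2) (.pp [(1, 26415000)])) (.mul (.g 3) (.pp [(1,
    12753810000)])))))) (.add (.mul (.g 12) (.add (.pp [(1, 8551500000)]) (.mul (.g 19) (.pp [(1,
    4431300000)])))) (.add (.mul (.g 13) (.add (.mul (.g 4) (.pp [(1, 5562000000)])) (.mul (.g 16)
    (.pp [(1, 12530700000)])))) (.mul (.g 17) (.add (.pp [(1, 9522600000)]) (.mul (.g 15) (.pp [(1,
    7613700000)]))))))))) (.mul (.g 10) (.add (.add (.add (.mul (.pp [(1, 528720)]) (.sq [(1, -12),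
    (3, 43), (5, -67), (7, -35), (13, 17), (17, 100), (19, -44), (23, 15)])) (.mul (.pp [(1, 118320)])
    (.sq [(1, -18), (2, 14), (3, 48), (5, 23), (7, 57), (13, -1), (17, -64), (19, 63), (23, -100)])))
    (.add (.mul (.pp [(1, 1610280)]) (.sq [(1, -2), (2, 70), (3, -65), (5, -100), (7, 76), (13, 10),
    (17, -20), (19, 16), (23, 10)])) (.mul (.g 10) (.add (.add (.pp [(1, 16468500000)]) (.mul (.g 1)
    (.pp [(1, 8845800000)]))) (.add (.mul (.g 8) (.pp [(1, 20506800000)])) (.add (.mul (.g 17) (.pp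
    [(1, 699000000)])) (.mul (.g 19) (.pp [(1, 672540000)])))))))) (.add (.add (.mul (.g 13) (.add
    (.add (.mul (.g 11) (.pp [(1, 898500000)])) (.mul (.g 16) (.pp [(1, 11614200000)]))) (.add (.mul
    (.g 17) (.pp [(1, 17469000000)])) (.mul (.g 21) (.pp [(1, 1552680000)]))))) (.mul (.g 8) (.add
    (.mul (.g 1) (.pp [(1, 13990200000)])) (.add (.mul (.g 19) (.pp [(1, 1557600000)])) (.mul (.g 21)
    (.pp [(1, 835980000)])))))) (.add (.mul (.g 16) (.add (.mul (.g 9) (.pp [(1, 53359500000)])) (.add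
    (.mul (.g 17) (.pp [(1, 2256000000)])) (.mul (.g 19) (.pp [(1, 2254680000)]))))) (.add (.mul (.g
    20) (.add (.mul (.g 11) (.pp [(1, 4309020000)])) (.add (.mul (.g 18) (.pp [(1, 6533760000)]))
    (.mul (.g 19) (.pp [(1, 199008000)]))))) (.mul (.g 21) (.pp [(1, 1225500000)])))))))) (.add (.mul
    (.g 1) (.add (.add (.mul (.pp [(1, 1306140)]) (.sq [(1, -69), (2, 23), (3, 74), (5, -100), (7,
    -19), (17, 93), (19, -39), (23, -18)])) (.add (.mul (.pp [(1, 465990)]) (.sq [(1, -15), (2, -48),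
    (3, -28), (5, 3), (7, -11), (13, 100), (17, 17), (19, -15), (23, -5)])) (.mul (.g 0) (.add (.pp
    [(1, 1512945000)]) (.add (.mul (.g 2) (.pp [(1, 726780000)])) (.mul (.g 3) (.pp [(1,
    1834665000)]))))))) (.add (.add (.mul (.g 12) (.add (.pp [(1, 5449200000)]) (.mul (.g 11) (.pp
    [(1, 719100000)])))) (.mul (.g 16) (.add (.mul (.g 9) (.pp [(1, 8128200000)])) (.mul (.g 19) (.pp
    [(1, 6434160000)]))))) (.add (.mul (.g 18) (.add (.mul (.g 18) (.pp [(1, 9328200000)])) (.mul (.g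
    19) (.pp [(1, 3026100000)])))) (.mul (.g 17) (.mul (.g 20) (.pp [(1, 2741040000)]))))))) (.add
    (.mul (.g 17) (.add (.add (.mul (.pp [(1, 900000)]) (.sq [(1, -18), (2, -24), (3, -24), (5, 38),
    (13, 100), (17, -18), (19, -13), (23, -8)])) (.mul (.g 20) (.add (.add (.mul (.g 11) (.pp [(1,
    2664480000)])) (.mul (.g 13) (.pp [(1, 5598060000)]))) (.add (.mul (.g 16) (.pp [(1,
    1774260000)])) (.mul (.g 17) (.pp [(1, 2690340000)])))))) (.add (.mul (.g 13) (.add (.mul (.g 12)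
    (.pp [(1, 40868400000)])) (.mul (.g 21) (.pp [(1, 2765460000)])))) (.add (.mul (.g 16) (.add (.mul
    (.g 18) (.pp [(1, 7095000000)])) (.mul (.g 19) (.pp [(1, 3698220000)])))) (.mul (.g 21) (.mul (.g
    21) (.pp [(1, 16188000)]))))))) (.mul (.g 19) (.add (.add (.mul (.pp [(1, 45678)]) (.sq [(1, 14),
    (2, 1), (3, -27), (5, -54), (7, -6), (13, 100), (17, -19), (19, 11), (23, -4)])) (.mul (.pp [(1,
    313098)]) (.sq [(3, 3), (5, -12), (7, 83), (13, -100), (17, -23), (19, 81), (23, -97)]))) (.add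
    (.mul (.g 16) (.add (.mul (.g 8) (.pp [(1, 13714140000)])) (.add (.mul (.g 12) (.pp [(1,
    1801620000)])) (.mul (.g 18) (.pp [(1, 3711840000)]))))) (.mul (.g 8) (.mul (.g 8) (.pp [(1,
    1074780000)])))))))))) (.add (.add (.add (.mul (.g 9) (.add (.add (.mul (.pp [(1, 796800)]) (.sq
    [(1, -25), (2, -62), (3, 4), (5, -3), (7, 2), (13, -36), (17, 100), (19, -5), (23, -11)])) (.mul
    (.pp [(1, 749340)]) (.sq [(2, 100), (3, -69), (5, -20), (7, -13), (13, 8), (17, 75), (19, -68),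
    (23, 49)]))) (.add (.mul (.pp [(1, 1012800)]) (.sq [(1, -11), (2, 53), (3, -44), (5, -86), (7,
    12), (13, 100), (17, -8), (19, 12), (23, 9)])) (.add (.mul (.pp [(1, 961500)]) (.sq [(1, -41), (2,
    28), (3, -40), (5, 36), (7, -1), (13, 100), (17, 4), (19, 7), (23, -29)])) (.mul (.g 8) (.mul (.g
    16) (.pp [(1, 2227800000)]))))))) (.mul (.g 20) (.add (.add (.mul (.pp [(1, 234054)]) (.sq [(2,
    8), (5, 2), (7, -46), (13, 57), (17, -100), (19, 78), (23, -11)])) (.mul (.pp [(1, 661710)]) (.sq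
    [(1, -16), (2, 3), (3, 28), (5, 36), (7, -21), (13, 16), (17, 100), (19, -28), (23, -18)]))) (.add
    (.mul (.pp [(1, 297966)]) (.sq [(1, -17), (2, 20), (3, 2), (5, -8), (7, -37), (13, 29), (17, 100),
    (19, -10), (23, -31)])) (.add (.mul (.pp [(1, 277908)]) (.sq [(1, -4), (2, -19), (3, -53), (5,
    -79), (7, -2), (13, 81), (17, 100), (19, 8), (23, -37)])) (.mul (.pp [(1, 225132)]) (.sq [(1, 57),
    (2, 16), (3, -54), (5, 48), (13, 97), (17, -100), (19, -40), (23, 33)]))))))) (.add (.mul (.g 12)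
    (.add (.mul (.pp [(1, 588960)]) (.sq [(1, 8), (2, -7), (3, -13), (5, 100), (7, 5), (13, -84), (17,
    -18), (19, 1), (23, 16)])) (.add (.mul (.pp [(1, 372900)]) (.sq [(1, 57), (2, 16), (3, -54), (5,
    48), (13, 97), (17, -100), (19, -40), (23, 33)])) (.mul (.pp [(1, 514560)]) (.sq [(1, -20), (2,
    -68), (3, -5), (7, -20), (13, 29), (17, 100), (19, -24), (23, -3)]))))) (.add (.mul (.g 18) (.add
    (.mul (.pp [(1, 181650)]) (.sq [(1, 100), (2, 88), (3, -7), (5, 88), (13, -15), (17, -70), (19,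
    -70), (23, -15)])) (.add (.mul (.pp [(1, 342480)]) (.sq [(1, -43), (2, 50), (3, 87), (5, 100), (7,
    -9), (13, -19), (17, -15), (19, 1), (23, -5)])) (.mul (.g 18) (.mul (.g 21) (.pp [(1,
    9563760000)])))))) (.mul (.g 0) (.add (.mul (.pp [(1, 65307)]) (.sq [(1, 5), (2, 100), (3, -67),
    (5, 87), (7, -40), (13, 1), (17, 97), (19, -48), (23, -24)])) (.mul (.pp [(1, 7008)]) (.sq [(1,
    -7), (2, -71), (3, 48), (5, 100), (7, -19), (13, -40), (17, -9), (19, -14), (23, -10)])))))))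
    (.add (.add (.mul (.g 2) (.add (.mul (.pp [(1, 90210)]) (.sq [(1, -16), (2, -65), (3, -100), (5,
    12), (7, 18), (13, 12), (17, 52), (19, -39), (23, 13)])) (.mul (.pp [(1, 3054390)]) (.sq [(1, 7),
    (2, -19), (3, -12), (5, 100), (7, -18), (13, 15), (17, -27), (19, 37), (23, -46)])))) (.add (.mul
    (.g 4) (.add (.mul (.pp [(1, 356250)]) (.sq [(1, -99), (2, 36), (3, -1), (5, -48), (7, 61), (13,
    -42), (17, 100), (19, 31), (23, -20)])) (.mul (.pp [(1, 896250)]) (.sq [(1, -20), (2, -59), (3,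
    -49), (5, 3), (7, -3), (13, -42), (17, 100), (19, -25), (23, 6)])))) (.mul (.g 11) (.add (.mul
    (.pp [(1, 148890)]) (.sq [(1, -60), (2, -36), (3, -51), (5, -64), (7, 26), (13, -26), (17, 100),
    (19, 1), (23, 48)])) (.mul (.pp [(1, 386190)]) (.sq [(1, 64), (2, -12), (3, 49), (5, 100), (7,
    -11), (13, -43), (17, -60), (19, -4), (23, -61)])))))) (.add (.mul (.g 13) (.add (.mul (.pp [(1,
    93930)]) (.sq [(2, 37), (3, -18), (5, 47), (7, -46), (13, 67), (17, 100), (19, -39), (23, 2)]))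
    (.mul (.g 13) (.mul (.g 13) (.pp [(1, 5244000000)]))))) (.add (.mul (.g 21) (.add (.mul (.pp [(1,
    140310)]) (.sq [(1, 9), (2, -94), (3, -60), (5, 100), (7, -6), (13, 55), (17, -38), (19, 3), (23,
    3)])) (.mul (.g 8) (.mul (.g 16) (.pp [(1, 194880000)]))))) (.mul (.g 15) (.mul (.pp [(1,
    2971380)]) (.sq [(2, 100), (3, 48), (5, -15), (7, -4), (13, -92), (17, -3), (19, 68), (23,
    -34)])))))))) (.pp [(1, 9541080627), (2, 2341092), (3, 2671140), (4, 3064092), (5, 2467152), (6,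
    2350944), (7, 2672658), (8, 3091110), (9, 2834139), (10, 2683464), (12, 2830320), (13, 3383802),
    (14, 2982468), (15, 3689070), (17, 3272142), (18, 3032400), (19, 3424338), (20, 2810160), (21,
    2979732), (23, 3434940), (25, 2883501), (26, 3874404), (27, 2938260), (28, 3136170), (30,
    3027900), (34, 3233904), (35, 2511864), (38, 3423444), (39, 3097998), (42, 3230700), (45,
    2767230), (46, 3833244), (49, 3014334), (50, 2895960), (51, 3172254), (52, 2664720), (57,
    3208080), (63, 3166830), (65, 3427410), (68, 3091650), (69, 3607908), (70, 2709360), (75,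
    2782950), (76, 2763630), (78, 3487140), (85, 3000822), (91, 3705252), (92, 3150090), (95,
    3483168), (98, 2935110), (102, 2858880), (105, 3052080), (114, 3365640), (115, 3304332), (117,
    2609100), (119, 2648688), (125, 2802400), (130, 3348840), (133, 2703852), (138, 2916900), (147,
    3469740), (153, 3204240), (161, 2881248), (169, 2518677), (170, 3178620), (171, 2804190), (175,
    2734860), (182, 2408640), (190, 3286320), (195, 3036240), (207, 3433980), (221, 3486414), (230,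
    2916540), (238, 2955720), (245, 3150060), (247, 2552556), (255, 2925840), (266, 3747900), (273,
    3486960), (285, 2555940), (289, 2936913), (299, 2414928), (322, 2751360), (323, 3084852), (325,
    2894640), (338, 3106560), (343, 2754810), (345, 2909460), (357, 2793000), (361, 2829246), (391,
    2676648), (399, 2908320), (425, 3104790), (437, 3318072), (442, 2666820), (455, 3336180), (475,
    3149910), (483, 1937760), (494, 2827020), (507, 3246030), (529, 2602776), (575, 3218730), (578,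
    2978040), (595, 2661900), (598, 3110580), (637, 2813760), (646, 2920500), (663, 3315660), (665,
    3437820), (722, 2580060), (741, 2263680), (782, 2906640), (805, 3085920), (833, 3063210), (845,
    2969100), (867, 2616480), (874, 2788200), (897, 3193380), (931, 3785280), (969, 3438240), (1058,
    2791050), (1083, 2907210), (1105, 2803020), (1127, 2967210), (1173, 2659080), (1183, 3001260),
    (1235, 2765280), (1311, 3360660), (1445, 2929200), (1495, 2967060), (1547, 2929560), (1587,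
    2893680), (1615, 3077340), (1729, 2847720), (1805, 3073710), (1955, 3401340), (2023, 3358530),
    (2093, 3228000), (2185, 2684820), (2197, 2864160), (2261, 3121260), (2527, 2528370), (2645,
    2817660), (2737, 2998080), (2873, 2983140), (3059, 2379240), (3211, 3150330), (3703, 3449460),
    (3757, 2818620), (3887, 3190380), (4199, 3126060), (4693, 3123720), (4913, 2939040), (5083,
    2611860), (5491, 2838930), (5681, 2794020), (6137, 2877540), (6647, 3120630), (6859, 3042840),
    (6877, 2814660), (7429, 2922480), (8303, 3374100), (8993, 3216270), (10051, 2957460), (12167,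
    3113550)])) (by norm_num)
    (by decide +kernel)

theorem ckP2 : Ck (gPB 2) (pPB 2) :=
  .mk' 1000000 (.add (.add (.add (.add (.add (.mul (.pp [(1, 633060)]) (.sq [(1, -4), (2, 2), (3, 35), (5, 100),
    (7, -26), (13, -67), (17, 53), (19, 4), (23, -11)])) (.mul (.g 10) (.add (.add (.add (.mul (.pp
    [(1, 1204560)]) (.sq [(2, -1), (3, -17), (5, -88), (7, 43), (13, -100), (17, 9), (19, -52), (23,
    41)])) (.add (.mul (.pp [(1, 1319520)]) (.sq [(1, -44), (2, -28), (3, -32), (5, 35), (7, 19), (13,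
    2), (17, -24), (19, -24), (23, 100)])) (.mul (.pp [(1, 14076000000)]) (.sq [(7, 1), (19, -1)]))))
    (.add (.add (.mul (.pp [(1, 65040)]) (.sq [(2, -50), (3, 2), (5, 100), (7, -42), (13, -25), (17,
    74), (19, 34), (23, -21)])) (.mul (.pp [(1, 6122400)]) (.sq [(2, -12), (3, 100), (5, 6), (7, -22),
    (13, -14), (17, -52), (19, -14), (23, 19)]))) (.add (.mul (.g 20) (.add (.add (.mul (.g 1) (.pp
    [(1, 4164240000)])) (.add (.mul (.g 3) (.pp [(1, 462360000)])) (.mul (.g 11) (.pp [(1,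
    18072120000)])))) (.add (.add (.mul (.g 15) (.pp [(1, 2762280000)])) (.mul (.g 16) (.pp [(1,
    4425000000)]))) (.add (.mul (.g 17) (.pp [(1, 9784560000)])) (.mul (.g 18) (.pp [(1,
    5863800000)])))))) (.mul (.g 8) (.add (.add (.mul (.g 1) (.pp [(1, 50520600000)])) (.add (.mul (.g
    5) (.pp [(1, 21222600000)])) (.mul (.g 6) (.pp [(1, 52329600000)])))) (.add (.mul (.g 8) (.pp [(1,
    44557800000)])) (.add (.mul (.g 17) (.pp [(1, 10889400000)])) (.mul (.g 19) (.pp [(1,
    8695680000)]))))))))) (.add (.add (.mul (.g 16) (.add (.add (.mul (.g 7) (.pp [(1, 29404200000)]))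
    (.mul (.g 9) (.pp [(1, 76135800000)]))) (.add (.mul (.g 12) (.pp [(1, 10632000000)])) (.mul (.g
    19) (.pp [(1, 1960080000)]))))) (.add (.mul (.g 1) (.add (.pp [(1, 15335400000)]) (.add (.mul (.g
    13) (.pp [(1, 12739800000)])) (.mul (.g 15) (.pp [(1, 30051000000)]))))) (.mul (.g 10) (.add (.pp
    [(1, 34130400000)]) (.add (.mul (.g 11) (.pp [(1, 16276200000)])) (.mul (.g 19) (.pp [(1,
    1493760000)]))))))) (.add (.add (.mul (.g 18) (.add (.mul (.g 7) (.pp [(1, 5329200000)])) (.mul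
    (.g 18) (.pp [(1, 10970400000)])))) (.mul (.g 5) (.pp [(1, 157890000000)]))) (.add (.mul (.g 6)
    (.mul (.g 21) (.pp [(1, 2181360000)]))) (.mul (.g 12) (.mul (.g 13) (.pp [(1,
    37092000000)]))))))))) (.add (.mul (.g 7) (.add (.add (.add (.mul (.pp [(1, 649620)]) (.sq [(2,
    7), (3, 100), (5, -66), (7, 54), (13, -44), (17, 13), (19, -6), (23, -53)])) (.add (.mul (.pp [(1,
    251700)]) (.sq [(2, -97), (3, 86), (5, 93), (7, 50), (13, -43), (17, -100), (19, -3), (23, -13)]))
    (.mul (.pp [(1, 2273160)]) (.sq [(2, 100), (3, -28), (5, -4), (7, 49), (13, 81), (17, 19), (19,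
    4), (23, -50)])))) (.add (.mul (.pp [(1, 325200)]) (.sq [(5, 71), (7, -100), (19, 71)])) (.add
    (.mul (.g 6) (.add (.add (.pp [(1, 7530600000)]) (.mul (.g 15) (.pp [(1, 120660600000)]))) (.add
    (.mul (.g 16) (.pp [(1, 23573400000)])) (.mul (.g 21) (.pp [(1, 11588640000)]))))) (.mul (.g 2)
    (.add (.mul (.g 1) (.pp [(1, 121482000000)])) (.add (.mul (.g 8) (.pp [(1, 453000000)])) (.mul (.g
    13) (.pp [(1, 60605400000)])))))))) (.add (.add (.mul (.g 5) (.add (.pp [(1, 78909600000)]) (.add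
    (.mul (.g 16) (.pp [(1, 48714000000)])) (.mul (.g 17) (.pp [(1, 53276400000)]))))) (.add (.mul (.g
    7) (.add (.mul (.g 11) (.pp [(1, 14481000000)])) (.add (.mul (.g 16) (.pp [(1, 99082200000)]))
    (.mul (.g 17) (.pp [(1, 23907000000)]))))) (.mul (.g 18) (.add (.mul (.g 1) (.pp [(1,
    117375000000)])) (.add (.mul (.g 8) (.pp [(1, 8986200000)])) (.mul (.g 12) (.pp [(1,
    16189800000)]))))))) (.add (.add (.mul (.g 13) (.add (.mul (.g 12) (.pp [(1, 6072600000)])) (.mul
    (.g 17) (.pp [(1, 30719400000)])))) (.mul (.g 8) (.mul (.g 19) (.pp [(1, 32014560000)])))) (.add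
    (.mul (.g 11) (.mul (.g 21) (.pp [(1, 774960000)]))) (.mul (.g 16) (.pp [(1, 16221000000)])))))))
    (.add (.mul (.g 1) (.add (.add (.add (.mul (.pp [(1, 1234080)]) (.sq [(2, 97), (3, 34), (5, 37),
    (7, 48), (13, -31), (17, -93), (19, 100), (23, 80)])) (.add (.mul (.pp [(1, 607800)]) (.sq [(2,
    -100), (3, 48), (5, -19), (7, -3), (13, -54), (17, -22), (19, -9), (23, 91)])) (.mul (.pp [(1,
    17553660)]) (.sq [(1, 26), (3, 7), (5, 100), (7, -35), (13, -21), (17, 2), (19, -14), (23,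
    -19)])))) (.add (.mul (.pp [(1, 7690140)]) (.sq [(2, 5), (3, -5), (5, 26), (7, -48), (13, -29),
    (17, 100), (19, 1), (23, -85)])) (.add (.mul (.pp [(1, 3832980)]) (.sq [(1, 29), (2, -18), (3,
    -41), (5, 89), (13, 100), (17, -1), (19, -89), (23, -40)])) (.mul (.pp [(1, 2315880)]) (.sq [(1,
    -70), (2, 2), (3, 28), (5, -2), (7, -88), (13, 96), (17, 100), (19, 11), (23, -40)]))))) (.add
    (.add (.mul (.g 18) (.add (.add (.pp [(1, 46828200000)]) (.mul (.g 4) (.pp [(1, 50176800000)])))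
    (.add (.mul (.g 12) (.pp [(1, 48829800000)])) (.add (.mul (.g 18) (.pp [(1, 212550600000)])) (.mul
    (.g 20) (.pp [(1, 2941080000)])))))) (.add (.mul (.g 0) (.add (.add (.pp [(1, 3321990000)]) (.mul
    (.g 3) (.pp [(1, 1260750000)]))) (.add (.mul (.g 11) (.pp [(1, 4489080000)])) (.mul (.g 13) (.pp
    [(1, 190290000)]))))) (.mul (.g 2) (.add (.mul (.g 4) (.pp [(1, 26497200000)])) (.add (.mul (.g
    13) (.pp [(1, 24496200000)])) (.mul (.g 17) (.pp [(1, 44194800000)]))))))) (.add (.mul (.g 3)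
    (.mul (.g 20) (.pp [(1, 8952480000)]))) (.add (.mul (.g 13) (.pp [(1, 6523200000)])) (.mul (.g 16)
    (.mul (.g 17) (.pp [(1, 18262800000)])))))))) (.mul (.g 20) (.add (.add (.add (.mul (.pp [(1,
    227820)]) (.sq [(1, -23), (2, 15), (3, -38), (5, 14), (7, -43), (13, 100), (17, 91), (19, -68),
    (23, 48)])) (.mul (.pp [(1, 424068)]) (.sq [(1, -25), (2, 1), (3, 72), (5, 26), (7, -28), (13,
    61), (17, 100), (19, 26), (23, -47)]))) (.add (.mul (.pp [(1, 2091132)]) (.sq [(1, -56), (2, 71),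
    (3, -7), (5, 5), (7, -9), (13, -12), (17, 100), (19, -22), (23, 19)])) (.add (.mul (.pp [(1,
    622896)]) (.sq [(2, -37), (3, -4), (5, -38), (7, 43), (13, 95), (17, -100), (19, -20), (23, 13)]))
    (.mul (.pp [(1, 66948)]) (.sq [(2, 75), (3, -9), (5, -32), (7, -57), (13, -15), (17, -100), (19,
    77), (23, -10)]))))) (.add (.add (.mul (.pp [(1, 104532)]) (.sq [(1, 49), (2, 45), (3, -49), (5,
    59), (7, -8), (13, 57), (17, -100), (19, -22), (23, -13)])) (.add (.mul (.g 6) (.add (.add (.pp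
    [(1, 2389560000)]) (.mul (.g 4) (.pp [(1, 3137520000)]))) (.add (.mul (.g 16) (.pp [(1,
    3496200000)])) (.mul (.g 17) (.pp [(1, 2981160000)]))))) (.mul (.g 5) (.add (.pp [(1,
    24199440000)]) (.add (.mul (.g 11) (.pp [(1, 6220440000)])) (.mul (.g 21) (.pp [(1,
    254064000)]))))))) (.add (.mul (.g 17) (.add (.mul (.g 9) (.pp [(1, 7951800000)])) (.add (.mul (.g
    11) (.pp [(1, 1096200000)])) (.mul (.g 20) (.pp [(1, 722664000)]))))) (.add (.mul (.g 19) (.add
    (.mul (.g 16) (.pp [(1, 1688496000)])) (.mul (.g 18) (.pp [(1, 346536000)])))) (.mul (.g 12) (.mul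
    (.g 12) (.pp [(1, 1965240000)]))))))))))) (.add (.add (.mul (.g 16) (.add (.add (.add (.mul (.pp
    [(1, 298440)]) (.sq [(2, 39), (3, -6), (5, 100), (7, -77), (17, -67), (19, 9), (23, 37)])) (.mul
    (.pp [(1, 1154460)]) (.sq [(2, 11), (3, -95), (5, -100), (7, 7), (13, 45), (17, 48), (19, -4),
    (23, -28)]))) (.add (.mul (.g 19) (.add (.add (.mul (.g 3) (.pp [(1, 4073400000)])) (.mul (.g 8)
    (.pp [(1, 20252760000)]))) (.add (.mul (.g 11) (.pp [(1, 1894560000)])) (.mul (.g 16) (.pp [(1,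
    167640000)]))))) (.mul (.g 5) (.add (.mul (.g 9) (.pp [(1, 73540800000)])) (.mul (.g 12) (.pp [(1,
    1575000000)])))))) (.add (.add (.mul (.g 8) (.add (.mul (.g 9) (.pp [(1, 127797000000)])) (.mul
    (.g 21) (.pp [(1, 737280000)])))) (.mul (.g 13) (.add (.mul (.g 17) (.pp [(1, 14733600000)]))
    (.mul (.g 18) (.pp [(1, 15967200000)]))))) (.add (.mul (.g 2) (.mul (.g 21) (.pp [(1,
    2090880000)]))) (.add (.mul (.g 6) (.mul (.g 6) (.pp [(1, 10686000000)]))) (.mul (.g 17) (.mul (.g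
    17) (.pp [(1, 23868000000)])))))))) (.mul (.g 5) (.add (.add (.add (.mul (.pp [(1, 148680)]) (.sq
    [(1, -100), (2, 80), (3, 66), (5, -60), (7, 15), (13, 5), (17, 89), (19, -25), (23, 20)])) (.mul
    (.pp [(1, 111720)]) (.sq [(2, 12), (3, -100), (5, 1), (7, -41), (13, -34), (17, 83), (19, 77),
    (23, 30)]))) (.add (.mul (.pp [(1, 971460)]) (.sq [(2, 27), (3, -23), (5, 100), (7, -71), (13,
    71), (17, -67), (23, 68)])) (.mul (.pp [(1, 291900)]) (.sq [(1, -30), (2, 21), (3, 12), (5, 100),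
    (7, -28), (13, 32), (17, 27), (19, 21), (23, -51)])))) (.add (.add (.mul (.pp [(1, 1006140)]) (.sq
    [(1, 22), (2, -15), (3, -3), (5, 52), (7, -3), (13, -96), (17, -27), (19, 64), (23, 100)])) (.mul
    (.g 0) (.add (.add (.pp [(1, 18509550000)]) (.mul (.g 2) (.pp [(1, 5688240000)]))) (.add (.mul (.g
    4) (.pp [(1, 57300000)])) (.mul (.g 19) (.pp [(1, 118908000)])))))) (.add (.mul (.g 2) (.mul (.g
    9) (.pp [(1, 34368600000)]))) (.mul (.g 4) (.mul (.g 13) (.pp [(1, 19782000000)])))))))) (.add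
    (.mul (.g 13) (.add (.add (.add (.mul (.pp [(1, 741960)]) (.sq [(1, -17), (2, 100), (3, -20), (5,
    44), (7, -9), (13, -49), (17, -27), (19, 82), (23, -24)])) (.mul (.pp [(1, 2788800)]) (.sq [(1,
    4), (2, 29), (3, 41), (5, 41), (7, -5), (13, 51), (17, -100), (19, 24), (23, 6)]))) (.add (.mul
    (.pp [(1, 1365600)]) (.sq [(2, -6), (3, -63), (5, -20), (7, 27), (13, 43), (17, 44), (19, 58),
    (23, -100)])) (.mul (.pp [(1, 99540)]) (.sq [(1, -18), (2, 68), (5, -59), (7, -89), (13, 69), (17,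
    100), (19, 12), (23, 9)])))) (.add (.add (.mul (.pp [(1, 2100960)]) (.sq [(2, -25), (3, -45), (5,
    2), (7, 73), (13, 46), (17, 66), (19, -100), (23, -28)])) (.mul (.pp [(1, 837900)]) (.sq [(2, 51),
    (3, 100), (5, -65), (7, 91), (13, -2), (17, -14), (19, 24), (23, -99)]))) (.add (.mul (.g 6) (.add
    (.mul (.g 2) (.pp [(1, 15608400000)])) (.mul (.g 12) (.pp [(1, 27302400000)])))) (.mul (.g 17)
    (.add (.mul (.g 8) (.pp [(1, 23587200000)])) (.mul (.g 13) (.pp [(1, 13881000000)])))))))) (.add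
    (.mul (.g 21) (.add (.add (.mul (.pp [(1, 62268)]) (.sq [(2, 59), (3, -7), (7, -26), (13, 97),
    (17, -100), (19, -18), (23, 91)])) (.add (.mul (.pp [(1, 492600)]) (.sq [(1, -30), (2, 2), (3,
    -2), (5, -33), (7, -26), (13, 2), (17, 100), (19, 7), (23, -18)])) (.mul (.pp [(1, 368928)]) (.sq
    [(1, -60), (2, -14), (3, -19), (5, 100), (7, -29), (13, 41), (17, 2), (19, 63), (23, -4)]))))
    (.add (.add (.mul (.pp [(1, 229500)]) (.sq [(2, 100), (3, 78), (5, 18), (7, 41), (13, -37), (17,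
    -38), (19, 3), (23, -50)])) (.mul (.pp [(1, 212964)]) (.sq [(1, -2), (2, 26), (3, -25), (5, 100),
    (7, -74), (13, -18), (17, 32), (19, -13), (23, -18)]))) (.add (.mul (.g 0) (.mul (.g 21) (.pp [(1,
    763996800)]))) (.mul (.g 18) (.mul (.g 18) (.pp [(1, 14354520000)]))))))) (.mul (.g 12) (.add
    (.add (.mul (.pp [(1, 1766580)]) (.sq [(1, -42), (2, -33), (3, 59), (5, -58), (7, -23), (13, -21),
    (17, 100), (19, -1), (23, -23)])) (.mul (.pp [(1, 1884600)]) (.sq [(1, 60), (2, -16), (3, -67),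
    (5, 87), (7, -43), (13, 73), (17, -92), (19, 100), (23, -84)]))) (.add (.mul (.pp [(1, 3434880)])
    (.sq [(2, 89), (3, 43), (5, 48), (7, 49), (13, -100), (17, -6), (19, -29), (23, 9)])) (.add (.mul
    (.pp [(1, 281100)]) (.sq [(2, -87), (3, 52), (5, 61), (7, -21), (13, -100), (17, -5), (19, 2),
    (23, 6)])) (.mul (.g 12) (.mul (.g 12) (.pp [(1, 7804800000)]))))))))))) (.add (.add (.add (.mul
    (.g 4) (.add (.mul (.pp [(1, 827100)]) (.sq [(2, -5), (3, -72), (5, -100), (7, -50), (13, 54),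
    (17, 29), (19, 45), (23, 46)])) (.add (.mul (.pp [(1, 675180)]) (.sq [(1, 39), (2, 62), (3, 87),
    (5, -15), (7, 21), (13, -43), (17, -100), (19, 64), (23, -53)])) (.mul (.g 6) (.mul (.g 6) (.pp
    [(1, 33022200000)])))))) (.mul (.g 9) (.add (.mul (.pp [(1, 2400540)]) (.sq [(1, 10), (2, -51),
    (3, 42), (5, 43), (7, 4), (13, -100), (17, 28), (19, 19), (23, 5)])) (.add (.mul (.pp [(1,
    3385140)]) (.sq [(1, -10), (2, -50), (3, -71), (5, 49), (7, -41), (13, 100), (17, 21), (19, -14),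
    (23, -13)])) (.mul (.pp [(1, 952500)]) (.sq [(2, 100), (3, -32), (5, -39), (7, 38), (13, 2), (17,
    83), (19, 13), (23, -85)])))))) (.add (.mul (.g 0) (.add (.mul (.pp [(1, 402342)]) (.sq [(1, 3),
    (2, -15), (3, 18), (5, -32), (7, 15), (13, 21), (17, 68), (19, 33), (23, -100)])) (.mul (.pp [(1,
    52947)]) (.sq [(1, 39), (2, -92), (3, 34), (5, 73), (7, -39), (13, -100), (17, -82), (19, 61),
    (23, 13)])))) (.add (.mul (.g 2) (.add (.mul (.pp [(1, 319200)]) (.sq [(1, -38), (2, -87), (3,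
    -93), (5, 46), (7, 2), (13, 100), (17, 25), (19, -68), (23, 42)])) (.mul (.g 6) (.mul (.g 6) (.pp
    [(1, 146789400000)]))))) (.mul (.g 6) (.mul (.pp [(1, 973200)]) (.sq [(2, 82), (3, 56), (5, -95),
    (7, 24), (13, -100), (17, 57), (19, -10), (23, -54)])))))) (.add (.add (.mul (.g 8) (.mul (.pp
    [(1, 556560)]) (.sq [(1, 28), (2, 9), (3, 31), (5, 81), (7, 2), (13, -3), (17, -100), (19, 19),
    (23, -15)]))) (.add (.mul (.g 11) (.mul (.pp [(1, 959400)]) (.sq [(1, -35), (2, -99), (3, -97),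
    (5, 43), (7, -1), (13, 100), (17, 13), (19, -52), (23, 53)]))) (.mul (.g 15) (.mul (.pp [(1,
    7059180)]) (.sq [(1, -13), (2, 16), (3, -16), (5, 25), (7, -52), (13, -42), (17, 100), (23,
    10)]))))) (.add (.mul (.g 17) (.mul (.pp [(1, 579540)]) (.sq [(1, -4), (2, -3), (3, 98), (5, 100),
    (7, -27), (13, -46), (17, -47), (19, -13), (23, 47)]))) (.add (.mul (.g 18) (.mul (.pp [(1,
    1294140)]) (.sq [(1, -10), (2, 88), (3, 32), (5, 55), (7, -34), (13, -21), (17, 46), (19, 86),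
    (23, -100)]))) (.mul (.g 19) (.mul (.pp [(1, 54324)]) (.sq [(1, 7), (2, -7), (3, -42), (5, -19),
    (7, -19), (13, -57), (17, 100), (19, -14), (23, -3)])))))))) (.pp [(1, 2174012097), (2, 5772240),
    (3, 5372664), (4, 5479794), (5, 6310122), (6, 6264384), (7, 5991054), (8, 6226320), (9, 5899104),
    (10, 6462192), (12, 5670180), (13, 5778948), (14, 5617212), (15, 6283620), (17, 5643708), (18,
    5473740), (19, 5751306), (20, 6122820), (21, 4218708), (23, 5383326), (25, 5621463), (26,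
    5906580), (27, 5647620), (28, 6238380), (30, 6612480), (34, 7708344), (35, 5646942), (38,
    5614284), (39, 6042936), (42, 6420360), (45, 6523440), (46, 4977120), (49, 5582505), (50,
    5466660), (51, 7635096), (52, 5728860), (57, 6361716), (63, 6370440), (65, 6868800), (68,
    7702620), (69, 6960084), (70, 6655920), (75, 5935920), (76, 5536800), (78, 5411040), (85,
    6356916), (91, 6740508), (92, 5445300), (95, 5676390), (98, 5356080), (102, 6061560), (105,
    6095880), (114, 5083440), (115, 5006094), (117, 5416980), (119, 7053732), (125, 6423500), (130,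
    6082680), (133, 6678090), (138, 6549240), (147, 5969760), (153, 6670980), (161, 7427142), (169,
    4978638), (170, 4961280), (171, 5485260), (175, 6139740), (182, 5854920), (190, 5378400), (195,
    6043920), (207, 6240180), (221, 5274864), (230, 6077520), (238, 5472960), (245, 6733740), (247,
    6455724), (255, 5638800), (266, 7382880), (273, 6198120), (285, 5839680), (289, 5836584), (299,
    7218360), (322, 7410000), (323, 5436540), (325, 6324300), (338, 6340440), (343, 5923060), (345,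
    5424240), (357, 6590160), (361, 5046585), (391, 6435156), (399, 7766280), (425, 6416700), (437,
    4886862), (442, 4802760), (455, 6014160), (475, 6010140), (483, 5614560), (494, 6276960), (507,
    6011160), (529, 5563347), (575, 5587560), (578, 6409680), (595, 4980960), (598, 6403200), (637,
    4864860), (646, 5171640), (663, 4186080), (665, 5555880), (722, 5593080), (741, 6804360), (782,
    5362920), (805, 5648160), (833, 6140280), (845, 5703900), (867, 4365360), (874, 6385920), (897,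
    6763200), (931, 7151580), (969, 7138320), (1058, 5962140), (1083, 4944240), (1105, 5504520),
    (1127, 7199100), (1173, 5901600), (1183, 5601180), (1235, 5912160), (1311, 5457840), (1445,
    5621640), (1495, 5809560), (1547, 6488160), (1587, 5710440), (1615, 6215040), (1729, 6522720),
    (1805, 6245160), (1955, 7146960), (2023, 6278040), (2093, 6445680), (2185, 6718800), (2197,
    6282480), (2261, 3937680), (2527, 5591520), (2645, 6452460), (2737, 4294200), (2873, 6866640),
    (3059, 4224840), (3211, 6508080), (3703, 4925700), (3757, 6733800), (3887, 6157560), (4199,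
    6178920), (4693, 5957520), (4913, 6298380), (5083, 5919000), (5491, 5712960), (5681, 4718400),
    (6137, 7341300), (6647, 6000780), (6859, 6164240), (6877, 5174460), (7429, 6569040), (8303,
    7185540), (8993, 6410700), (10051, 6879840), (12167, 6499800)])) (by norm_num)
    (by decide +kernel)

theorem ckP3 : Ck (gPB 3) (pPB 3) :=
  .mk' 500000 (.add (.add (.add (.add (.add (.mul (.pp [(1, 2240460)]) (.sq [(1, 14), (2, -31), (5, 100), (7,
    -36), (13, 17), (17, 14), (19, -36)])) (.mul (.pp [(1, 1728180)]) (.sq [(1, -2), (2, -34), (3,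
    -64), (5, 71), (7, 10), (13, 100), (17, -51), (19, -26), (23, 11)]))) (.add (.mul (.g 13) (.add
    (.add (.add (.add (.mul (.pp [(1, 222420)]) (.sq [(1, 11), (2, 10), (3, 16), (5, -75), (7, -26),
    (13, 100), (17, -27), (19, -20), (23, 54)])) (.mul (.pp [(1, 3132420)]) (.sq [(1, -4), (2, -32),
    (3, 27), (7, 10), (13, 50), (17, -100), (19, 5), (23, 34)]))) (.add (.mul (.pp [(1, 11997300000)])
    (.sq [(7, -1), (23, 1)])) (.mul (.pp [(1, 506220)]) (.sq [(1, -4), (2, 95), (3, -57), (5, -6), (7,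
    62), (13, -37), (17, -32), (19, 48), (23, -100)])))) (.add (.add (.mul (.pp [(1, 516690)]) (.sq
    [(1, -56), (2, 66), (3, -5), (5, 24), (7, 4), (13, -45), (17, -100), (19, 36), (23, 83)])) (.mul
    (.pp [(1, 520770)]) (.sq [(1, -9), (2, 25), (3, -39), (5, 33), (7, -24), (13, 57), (17, 100), (19,
    -28), (23, -37)]))) (.add (.mul (.pp [(1, 206940)]) (.sq [(2, 9), (3, -40), (5, -100), (7, -84),
    (13, -51), (17, 57), (19, 63), (23, -2)])) (.mul (.g 17) (.add (.add (.pp [(1, 8677500000)]) (.add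
    (.mul (.g 1) (.pp [(1, 5532900000)])) (.mul (.g 10) (.pp [(1, 7483500000)])))) (.add (.mul (.g 13)
    (.pp [(1, 3335700000)])) (.add (.mul (.g 20) (.pp [(1, 411240000)])) (.mul (.g 21) (.pp [(1,
    1176900000)]))))))))) (.add (.add (.add (.mul (.g 5) (.add (.add (.pp [(1, 63694200000)]) (.mul
    (.g 8) (.pp [(1, 10299300000)]))) (.add (.mul (.g 11) (.pp [(1, 1828800000)])) (.mul (.g 16) (.pp
    [(1, 11160900000)]))))) (.mul (.g 7) (.add (.add (.mul (.g 7) (.pp [(1, 1796400000)])) (.mul (.g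
    10) (.pp [(1, 14616600000)]))) (.add (.mul (.g 11) (.pp [(1, 11222400000)])) (.mul (.g 16) (.pp
    [(1, 16132500000)])))))) (.add (.mul (.g 8) (.add (.mul (.g 8) (.pp [(1, 4889100000)])) (.add
    (.mul (.g 11) (.pp [(1, 13515000000)])) (.mul (.g 18) (.pp [(1, 7100700000)]))))) (.mul (.g 1)
    (.add (.mul (.g 2) (.pp [(1, 16687200000)])) (.mul (.g 6) (.pp [(1, 15750300000)])))))) (.add
    (.add (.mul (.g 13) (.add (.mul (.g 11) (.pp [(1, 15043500000)])) (.mul (.g 21) (.pp [(1,
    767040000)])))) (.mul (.g 16) (.add (.mul (.g 10) (.pp [(1, 7366800000)])) (.mul (.g 19) (.pp [(1,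
    581400000)]))))) (.add (.mul (.g 6) (.mul (.g 20) (.pp [(1, 1158780000)]))) (.mul (.g 21) (.mul
    (.g 21) (.pp [(1, 175080000)])))))))) (.add (.mul (.g 10) (.add (.add (.add (.mul (.pp [(1,
    575790)]) (.sq [(1, -7), (2, 100), (3, -36), (5, -24), (7, -11), (13, -99), (17, -41), (19, -8),
    (23, 82)])) (.add (.mul (.pp [(1, 342720)]) (.sq [(1, -5), (2, -29), (3, -91), (5, -27), (7, 61),
    (13, 15), (17, 100), (19, 61), (23, -91)])) (.mul (.pp [(1, 71400)]) (.sq [(2, -19), (5, -86), (7,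
    14), (13, -45), (17, 100), (19, -1), (23, 2)])))) (.add (.mul (.pp [(1, 262920)]) (.sq [(1, -4),
    (2, -41), (3, 22), (5, 21), (7, -5), (13, 100), (17, -15), (19, -35), (23, -1)])) (.add (.mul (.pp
    [(1, 187170)]) (.sq [(1, 26), (2, -23), (3, -70), (5, -94), (7, -75), (13, -58), (17, 100), (19,
    -62), (23, 95)])) (.mul (.pp [(1, 1534140)]) (.sq [(2, -59), (3, -100), (5, 18), (7, 5), (13, 51),
    (17, 30), (19, -25), (23, 9)]))))) (.add (.add (.mul (.g 16) (.add (.add (.mul (.g 0) (.pp [(1,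
    856335000)])) (.mul (.g 6) (.pp [(1, 30936900000)]))) (.add (.mul (.g 9) (.pp [(1, 14488500000)]))
    (.add (.mul (.g 19) (.pp [(1, 7407900000)])) (.mul (.g 20) (.pp [(1, 4554840000)])))))) (.add
    (.mul (.g 20) (.add (.add (.mul (.g 9) (.pp [(1, 1251300000)])) (.mul (.g 11) (.pp [(1,
    4858320000)]))) (.add (.mul (.g 20) (.pp [(1, 40404000)])) (.mul (.g 21) (.pp [(1,
    155820000)]))))) (.mul (.g 1) (.add (.mul (.g 8) (.pp [(1, 57741000000)])) (.add (.mul (.g 19)
    (.pp [(1, 718560000)])) (.mul (.g 21) (.pp [(1, 457080000)]))))))) (.add (.add (.mul (.g 5) (.add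
    (.pp [(1, 22165500000)]) (.add (.mul (.g 10) (.pp [(1, 7055400000)])) (.mul (.g 19) (.pp [(1,
    3609120000)]))))) (.mul (.g 6) (.add (.mul (.g 3) (.pp [(1, 8793300000)])) (.add (.mul (.g 10)
    (.pp [(1, 3165600000)])) (.mul (.g 18) (.pp [(1, 10444500000)])))))) (.add (.mul (.g 0) (.add
    (.mul (.g 7) (.pp [(1, 1071975000)])) (.mul (.g 10) (.pp [(1, 1241085000)])))) (.mul (.g 8) (.mul
    (.g 17) (.pp [(1, 2496000000)])))))))) (.mul (.g 7) (.add (.add (.add (.mul (.pp [(1, 1668510)])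
    (.sq [(1, -1), (2, -18), (3, -11), (5, 63), (7, 12), (13, 13), (17, 100), (19, -52), (23, -43)]))
    (.mul (.pp [(1, 75930)]) (.sq [(5, 71), (7, -100), (23, 71)]))) (.add (.mul (.g 16) (.add (.add
    (.mul (.g 5) (.pp [(1, 23154900000)])) (.mul (.g 7) (.pp [(1, 613500000)]))) (.add (.mul (.g 8)
    (.pp [(1, 16858800000)])) (.add (.mul (.g 11) (.pp [(1, 5216100000)])) (.mul (.g 16) (.pp [(1,
    27794100000)])))))) (.mul (.g 17) (.add (.add (.pp [(1, 5121900000)]) (.mul (.g 0) (.pp [(1,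
    1509885000)]))) (.add (.mul (.g 5) (.pp [(1, 17666100000)])) (.mul (.g 7) (.pp [(1,
    47885700000)]))))))) (.add (.add (.mul (.g 6) (.add (.pp [(1, 20358600000)]) (.add (.mul (.g 6)
    (.pp [(1, 701100000)])) (.mul (.g 9) (.pp [(1, 31750800000)]))))) (.mul (.g 21) (.add (.mul (.g 8)
    (.pp [(1, 2801700000)])) (.add (.mul (.g 11) (.pp [(1, 7760640000)])) (.mul (.g 21) (.pp [(1,
    764700000)])))))) (.add (.mul (.g 1) (.add (.mul (.g 9) (.pp [(1, 1332000000)])) (.mul (.g 18)
    (.pp [(1, 58510800000)])))) (.add (.mul (.g 7) (.pp [(1, 4939500000)])) (.mul (.g 8) (.mul (.g 9)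
    (.pp [(1, 5492100000)]))))))))))) (.add (.add (.mul (.g 12) (.add (.add (.add (.mul (.pp [(1,
    212280)]) (.sq [(1, -4), (2, 8), (3, 7), (5, -13), (7, -39), (13, 25), (17, 100), (19, 15), (23,
    -13)])) (.add (.mul (.pp [(1, 396180)]) (.sq [(1, -48), (2, 100), (3, -20), (5, 59), (7, 73), (13,
    -11), (17, 33), (19, -98), (23, 55)])) (.mul (.pp [(1, 850980)]) (.sq [(1, -11), (2, -29), (3,
    75), (5, 20), (7, 3), (13, -100), (17, 33), (19, 6), (23, 14)])))) (.add (.mul (.pp [(1,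
    1629240)]) (.sq [(1, -15), (2, -4), (3, 40), (5, -8), (7, 2), (13, 50), (17, 28), (19, 6), (23,
    -22)])) (.add (.mul (.pp [(1, 101190)]) (.sq [(1, 68), (2, 20), (3, 98), (5, 50), (7, 32), (13,
    -100), (17, 13), (19, -51), (23, -65)])) (.mul (.pp [(1, 404970)]) (.sq [(1, 27), (2, 3), (3,
    -36), (5, -41), (7, 34), (13, -74), (17, -100), (19, 54), (23, 11)]))))) (.add (.add (.mul (.pp
    [(1, 407040)]) (.sq [(1, 22), (2, 50), (3, -20), (5, 98), (7, -29), (13, 93), (17, -100), (19,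
    -4), (23, -17)])) (.add (.mul (.g 5) (.add (.add (.pp [(1, 4675800000)]) (.mul (.g 12) (.pp [(1,
    29687700000)]))) (.add (.mul (.g 18) (.pp [(1, 24402600000)])) (.mul (.g 19) (.pp [(1,
    2065200000)]))))) (.mul (.g 12) (.add (.mul (.g 12) (.pp [(1, 45579300000)])) (.add (.mul (.g 18)
    (.pp [(1, 2547600000)])) (.mul (.g 20) (.pp [(1, 450720000)]))))))) (.add (.mul (.g 1) (.add (.pp
    [(1, 7063800000)]) (.mul (.g 3) (.pp [(1, 15398100000)])))) (.add (.mul (.g 11) (.mul (.g 17) (.pp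
    [(1, 19075800000)]))) (.mul (.g 16) (.mul (.g 21) (.pp [(1, 5851680000)])))))))) (.mul (.g 17)
    (.add (.add (.mul (.pp [(1, 763410)]) (.sq [(1, -10), (2, -76), (3, -5), (5, -37), (7, -9), (13,
    100), (17, -1), (19, -3), (23, -4)])) (.mul (.pp [(1, 13470)]) (.sq [(1, -22), (2, 18), (3, -5),
    (5, 96), (7, -53), (13, 100), (17, 10), (19, -20), (23, -30)]))) (.add (.mul (.g 16) (.add (.add
    (.mul (.g 4) (.pp [(1, 769800000)])) (.mul (.g 9) (.pp [(1, 37507500000)]))) (.add (.mul (.g 11)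
    (.pp [(1, 726300000)])) (.add (.mul (.g 17) (.pp [(1, 7725600000)])) (.mul (.g 18) (.pp [(1,
    3166800000)])))))) (.add (.mul (.g 20) (.add (.add (.mul (.g 1) (.pp [(1, 633900000)])) (.mul (.g
    2) (.pp [(1, 2459700000)]))) (.add (.mul (.g 6) (.pp [(1, 6257340000)])) (.add (.mul (.g 11) (.pp
    [(1, 4333680000)])) (.mul (.g 19) (.pp [(1, 153924000)])))))) (.mul (.g 21) (.add (.mul (.g 0)
    (.pp [(1, 198162000)])) (.mul (.g 21) (.pp [(1, 347376000)]))))))))) (.add (.mul (.g 1) (.add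
    (.add (.mul (.pp [(1, 16950)]) (.sq [(2, -25), (3, 4), (5, -10), (7, 100), (13, -68), (17, -13),
    (19, 58), (23, 38)])) (.add (.mul (.pp [(1, 988590)]) (.sq [(1, -13), (2, -4), (3, -19), (5,
    -100), (7, 74), (13, 23), (17, -70), (19, 43), (23, 22)])) (.mul (.pp [(1, 305340)]) (.sq [(1,
    33), (2, 40), (3, -50), (13, 100), (17, -19), (19, -71)])))) (.add (.mul (.g 0) (.add (.add (.mul
    (.g 0) (.pp [(1, 3161250)])) (.mul (.g 2) (.pp [(1, 4816635000)]))) (.add (.mul (.g 15) (.pp [(1,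
    1565790000)])) (.mul (.g 21) (.pp [(1, 1023348000)]))))) (.add (.mul (.g 18) (.add (.mul (.g 4)
    (.pp [(1, 192389100000)])) (.add (.mul (.g 18) (.pp [(1, 12526800000)])) (.mul (.g 20) (.pp [(1,
    1950600000)]))))) (.mul (.g 16) (.mul (.g 19) (.pp [(1, 6699180000)]))))))) (.add (.mul (.g 5)
    (.add (.add (.mul (.pp [(1, 353760)]) (.sq [(2, -9), (3, -37), (5, -25), (7, 100), (13, -55), (17,
    -18), (19, 22), (23, 40)])) (.add (.mul (.pp [(1, 342840)]) (.sq [(1, 5), (2, 43), (3, 100), (5,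
    46), (7, 22), (13, -4), (17, 28), (19, -82), (23, -30)])) (.mul (.pp [(1, 270330)]) (.sq [(1, -9),
    (2, -5), (3, -90), (5, 80), (7, -75), (13, 97), (17, 73), (19, -100), (23, -64)])))) (.add (.add
    (.mul (.g 0) (.add (.add (.pp [(1, 2377635000)]) (.mul (.g 3) (.pp [(1, 5187735000)]))) (.add
    (.mul (.g 4) (.pp [(1, 2517075000)])) (.mul (.g 21) (.pp [(1, 2231100000)]))))) (.mul (.g 3) (.mul
    (.g 6) (.pp [(1, 10049100000)])))) (.add (.mul (.g 16) (.mul (.g 19) (.pp [(1, 1074780000)])))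
    (.mul (.g 18) (.mul (.g 18) (.pp [(1, 31400700000)]))))))) (.mul (.g 19) (.add (.add (.mul (.pp
    [(1, 97524)]) (.sq [(1, -52), (2, -27), (3, -42), (5, 90), (7, -10), (13, 100), (17, 34), (19,
    40), (23, -69)])) (.add (.mul (.pp [(1, 341328)]) (.sq [(1, -21), (2, 97), (3, -3), (5, 100), (7,
    12), (13, 99), (17, -14), (19, -23), (23, -20)])) (.mul (.pp [(1, 197130)]) (.sq [(1, 25), (2,
    20), (3, -42), (5, 60), (7, 12), (13, -100), (17, 10), (19, 15), (23, -56)])))) (.add (.mul (.pp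
    [(1, 55926)]) (.sq [(1, 22), (2, 86), (3, 99), (5, -88), (7, 10), (13, -78), (17, -100), (19, 91),
    (23, -5)])) (.add (.mul (.pp [(1, 1347174)]) (.sq [(1, 5), (2, -31), (3, -27), (5, -52), (7, -10),
    (13, 100), (17, -27), (19, 13), (23, 11)])) (.mul (.pp [(1, 185334)]) (.sq [(1, -23), (2, 100),
    (3, -21), (5, -40), (7, 8), (13, 75), (17, 21), (19, -19)])))))))))) (.add (.add (.add (.mul (.g
    21) (.add (.add (.mul (.pp [(1, 40074)]) (.sq [(2, 14), (3, -28), (5, 89), (7, 23), (13, 79), (17,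
    3), (19, -100), (23, 31)])) (.mul (.pp [(1, 457632)]) (.sq [(2, -6), (3, 9), (5, 100), (7, -1),
    (13, -6), (17, -1), (19, 9), (23, -53)]))) (.add (.mul (.pp [(1, 52554)]) (.sq [(1, -18), (2,
    -43), (3, -10), (5, 100), (7, -55), (13, 13), (17, 54), (19, -9), (23, -1)])) (.add (.mul (.pp
    [(1, 51858)]) (.sq [(1, 6), (2, 9), (3, 98), (5, -27), (7, 17), (13, -100), (17, 24), (19, -15),
    (23, 16)])) (.mul (.g 18) (.mul (.g 18) (.pp [(1, 4547580000)]))))))) (.mul (.g 4) (.add (.mul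
    (.pp [(1, 1357140)]) (.sq [(2, -2), (3, -2), (5, 43), (7, -100), (13, -2), (17, -2), (19, -2),
    (23, 77)])) (.add (.mul (.pp [(1, 649110)]) (.sq [(1, -28), (2, -86), (3, -62), (5, 50), (7, -29),
    (13, 100), (17, -24), (19, 82), (23, -52)])) (.mul (.pp [(1, 264600)]) (.sq [(1, -10), (2, -100),
    (3, 16), (5, 41), (7, 62), (13, 85), (17, -58), (19, 12), (23, -60)])))))) (.add (.mul (.g 6)
    (.add (.mul (.pp [(1, 974250)]) (.sq [(1, -10), (2, -36), (3, -47), (5, 41), (7, -10), (13, -74),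
    (17, 100), (19, -29), (23, 40)])) (.add (.mul (.pp [(1, 323970)]) (.sq [(1, 12), (2, -74), (3,
    100), (5, 61), (7, -5), (13, 46), (17, -47), (19, -2), (23, -38)])) (.mul (.g 3) (.mul (.g 6) (.pp
    [(1, 48144600000)])))))) (.add (.mul (.g 16) (.add (.mul (.pp [(1, 47130)]) (.sq [(1, -21), (2,
    75), (3, 35), (5, -100), (7, 48), (17, -2), (19, -10), (23, 4)])) (.add (.mul (.pp [(1, 4192290)])
    (.sq [(1, -16), (2, 47), (3, 3), (5, 100), (7, 9), (13, -38), (17, -7), (19, 2), (23, -45)]))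
    (.mul (.pp [(1, 262890)]) (.sq [(2, -1), (3, 15), (5, 100), (7, -83), (13, 55), (17, 23), (19,
    -14), (23, -19)]))))) (.mul (.g 9) (.add (.mul (.pp [(1, 247620)]) (.sq [(1, -63), (2, 90), (3,
    -33), (5, -24), (7, 42), (13, 100), (17, 18), (19, -47), (23, 20)])) (.mul (.pp [(1, 1064070)])
    (.sq [(1, -48), (2, -16), (3, -51), (5, 30), (7, -23), (13, 100), (17, 29), (19, 24), (23,
    -21)]))))))) (.add (.add (.mul (.g 20) (.add (.mul (.pp [(1, 5856)]) (.sq [(2, -80), (3, -100),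
    (5, 72), (7, -5), (13, 65), (17, -57), (19, -9)])) (.mul (.pp [(1, 535914)]) (.sq [(1, -22), (2,
    26), (7, -21), (13, -8), (17, 100), (19, -69), (23, 50)])))) (.add (.mul (.g 0) (.mul (.pp [(1,
    27381)]) (.sq [(1, 31), (2, 33), (3, 100), (5, -27), (13, -8), (17, -80), (19, -45), (23, 27)])))
    (.mul (.g 3) (.mul (.pp [(1, 945480)]) (.sq [(1, -3), (2, 54), (3, 4), (5, 20), (7, -1), (13, -8),
    (17, -14), (19, -67), (23, 100)]))))) (.add (.mul (.g 11) (.mul (.pp [(1, 86520)]) (.sq [(1, -33),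
    (2, 91), (3, 18), (5, -65), (7, -2), (13, -100), (17, 66), (19, 10), (23, 33)]))) (.add (.mul (.g
    15) (.mul (.pp [(1, 1859430)]) (.sq [(1, -3), (2, -60), (3, -46), (5, -84), (7, -2), (13, 84),
    (17, -1), (19, -44), (23, 100)]))) (.mul (.g 18) (.mul (.pp [(1, 102840)]) (.sq [(1, 45), (2,
    -50), (3, -34), (5, -14), (7, 33), (13, 43), (17, 33), (19, -100), (23, 15)])))))))) (.pp [(1,
    6274653411), (2, 2972616), (3, 2968326), (4, 3331701), (5, 2717190), (6, 2860560), (7, 2767518),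
    (8, 3113250), (9, 2978118), (10, 3340614), (12, 3167490), (13, 3090642), (14, 2135568), (15,
    3041352), (17, 2719968), (18, 3521040), (19, 3030696), (20, 2864700), (21, 3050196), (23,
    3198090), (25, 3070017), (26, 3345612), (27, 2772900), (28, 2512260), (30, 2794980), (34,
    3247728), (35, 3200364), (38, 2265570), (39, 3098484), (42, 3234000), (45, 3082560), (46,
    3983262), (49, 3590544), (50, 3413820), (51, 2366832), (52, 2052390), (57, 3178140), (63,
    2969370), (65, 3560568), (68, 2474520), (69, 3243468), (70, 3212280), (75, 3045660), (76,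
    3361200), (78, 3373980), (85, 2347884), (91, 3361224), (92, 3727560), (95, 3399270), (98,
    3371580), (102, 2498820), (105, 2918700), (114, 2648580), (115, 3283974), (117, 2866050), (119,
    3332280), (125, 3196540), (130, 3321540), (133, 3181608), (138, 2658240), (147, 3248850), (153,
    3072900), (161, 2330136), (169, 3543252), (170, 2534160), (171, 2813430), (175, 3181380), (182,
    3990360), (190, 2785680), (195, 2842020), (207, 3216510), (221, 2280720), (230, 2550480), (238,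
    2833140), (245, 2947770), (247, 2797752), (255, 3392160), (266, 3626760), (273, 2557140), (285,
    2778720), (289, 3986472), (299, 2378664), (322, 2348160), (323, 2542428), (325, 2874900), (338,
    3589470), (343, 2805410), (345, 3152820), (357, 3470340), (361, 3448083), (391, 3368508), (399,
    2796600), (425, 2833500), (437, 2668806), (442, 2670840), (455, 2810220), (475, 2636040), (483,
    2979660), (494, 2886960), (507, 2943660), (529, 3242781), (575, 2746110), (578, 3415350), (595,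
    3091440), (598, 1770600), (637, 2734350), (646, 3675420), (663, 3212820), (665, 2747700), (722,
    3157080), (741, 3150060), (782, 2577120), (805, 2684220), (833, 2771040), (845, 2850300), (867,
    2880150), (874, 2460540), (897, 3399900), (931, 3356160), (969, 3375780), (1058, 3549390), (1083,
    2951760), (1105, 3277680), (1127, 3449550), (1173, 2913840), (1183, 2470350), (1235, 2540040),
    (1311, 2879160), (1445, 3093210), (1495, 3248220), (1547, 3381900), (1587, 2674020), (1615,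
    3512760), (1729, 2368620), (1805, 3002220), (1955, 2398080), (2023, 2839320), (2093, 3860280),
    (2185, 3360000), (2197, 2747190), (2261, 2966640), (2527, 2420220), (2645, 3268800), (2737,
    2646960), (2873, 3100740), (3059, 3135660), (3211, 2873250), (3703, 2560920), (3757, 2885280),
    (3887, 3235470), (4199, 3040920), (4693, 3015480), (4913, 2739870), (5083, 3000240), (5491,
    2760360), (5681, 3857100), (6137, 3023430), (6647, 2793240), (6859, 2799300), (6877, 2470200),
    (7429, 3551460), (8303, 3233250), (8993, 3093240), (10051, 2323110), (12167, 3326320)])) (by norm_num)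
    (by decide +kernel)

theorem ckP4 : Ck (gPB 4) (pPB 4) :=
  .mk' 500000 (.add (.add (.add (.add (.add (.mul (.pp [(1, 2512350)]) (.sq [(1, 13), (2, -53), (3, -33), (5,
    100), (7, -64), (13, 45), (17, -10), (19, -11), (23, 22)])) (.mul (.pp [(1, 364560)]) (.sq [(1,
    -24), (2, -12), (3, -51), (5, -64), (7, 13), (13, 100), (17, -33), (19, -1), (23, 18)]))) (.add
    (.mul (.g 10) (.add (.add (.add (.mul (.pp [(1, 2316570)]) (.sq [(1, 28), (2, 23), (3, 49), (5,
    3), (7, -47), (13, 100), (17, -38), (19, -31), (23, 31)])) (.add (.mul (.pp [(1, 2720010)]) (.sq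
    [(1, -55), (2, 4), (3, 100), (5, -31), (7, 1), (13, -33), (17, -40), (19, 56), (23, 4)])) (.mul
    (.pp [(1, 26115000000)]) (.sq [(7, 1), (19, -1)])))) (.add (.add (.mul (.g 8) (.add (.add (.mul
    (.g 1) (.pp [(1, 46815600000)])) (.add (.mul (.g 6) (.pp [(1, 16231800000)])) (.mul (.g 7) (.pp
    [(1, 84660900000)])))) (.add (.add (.mul (.g 8) (.pp [(1, 2635800000)])) (.mul (.g 12) (.pp [(1,
    20451300000)]))) (.add (.mul (.g 19) (.pp [(1, 6584580000)])) (.mul (.g 21) (.pp [(1,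
    1422960000)])))))) (.mul (.g 21) (.add (.add (.mul (.g 1) (.pp [(1, 3078420000)])) (.add (.mul (.g
    11) (.pp [(1, 2733360000)])) (.mul (.g 13) (.pp [(1, 1677900000)])))) (.add (.mul (.g 18) (.pp
    [(1, 421200000)])) (.add (.mul (.g 19) (.pp [(1, 356016000)])) (.mul (.g 20) (.pp [(1,
    372912000)]))))))) (.add (.mul (.g 7) (.add (.add (.mul (.g 9) (.pp [(1, 22003800000)])) (.mul (.g
    13) (.pp [(1, 11784300000)]))) (.add (.mul (.g 15) (.pp [(1, 16814400000)])) (.mul (.g 19) (.pp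
    [(1, 1566960000)]))))) (.mul (.g 10) (.add (.add (.mul (.g 13) (.pp [(1, 11814600000)])) (.mul (.g
    17) (.pp [(1, 6323400000)]))) (.add (.mul (.g 18) (.pp [(1, 10586700000)])) (.mul (.g 19) (.pp
    [(1, 174780000)])))))))) (.add (.add (.mul (.g 1) (.add (.pp [(1, 2222100000)]) (.add (.mul (.g
    11) (.pp [(1, 17907300000)])) (.mul (.g 19) (.pp [(1, 10525320000)]))))) (.add (.mul (.g 6) (.add
    (.mul (.g 11) (.pp [(1, 23219400000)])) (.add (.mul (.g 17) (.pp [(1, 10836900000)])) (.mul (.g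
    19) (.pp [(1, 7481880000)]))))) (.mul (.g 16) (.add (.mul (.g 9) (.pp [(1, 53038800000)])) (.add
    (.mul (.g 13) (.pp [(1, 10664400000)])) (.mul (.g 18) (.pp [(1, 1851900000)]))))))) (.add (.add
    (.mul (.g 20) (.add (.mul (.g 3) (.pp [(1, 3271380000)])) (.mul (.g 17) (.pp [(1, 3413340000)]))))
    (.mul (.g 5) (.pp [(1, 1482600000)]))) (.add (.mul (.g 11) (.mul (.g 12) (.pp [(1,
    20402400000)]))) (.mul (.g 13) (.pp [(1, 6312600000)]))))))) (.add (.mul (.g 13) (.add (.add (.add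
    (.mul (.pp [(1, 917550)]) (.sq [(2, -55), (3, 45), (5, 14), (7, 8), (13, 100), (17, -47), (19,
    -1), (23, -7)])) (.add (.mul (.pp [(1, 208380)]) (.sq [(1, -5), (2, 4), (3, -46), (5, 86), (7,
    -27), (13, -10), (17, 100), (19, -18), (23, -23)])) (.mul (.pp [(1, 20688300000)]) (.sq [(7, -1),
    (23, 1)])))) (.add (.add (.mul (.pp [(1, 242490)]) (.sq [(1, 31), (2, -58), (3, -9), (5, -100),
    (7, -25), (13, 94), (17, 37), (19, -6), (23, -22)])) (.mul (.pp [(1, 2254650)]) (.sq [(1, -20),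
    (2, -17), (3, -64), (5, -10), (7, -26), (13, 50), (17, 100), (19, -21), (23, 23)]))) (.add (.mul
    (.pp [(1, 239250)]) (.sq [(1, -96), (2, -93), (3, -6), (5, 63), (7, 22), (13, 100), (17, -63),
    (19, 65), (23, -2)])) (.mul (.pp [(1, 299520)]) (.sq [(1, -28), (2, 51), (5, 24), (7, 42), (13,
    2), (17, -100), (19, -83), (23, 92)]))))) (.add (.add (.add (.mul (.pp [(1, 274320)]) (.sq [(1,
    -8), (2, 12), (3, -77), (5, 93), (7, 100), (13, 86), (17, -98), (19, -27), (23, -53)])) (.mul (.g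
    16) (.add (.add (.mul (.g 1) (.pp [(1, 4133400000)])) (.add (.mul (.g 7) (.pp [(1, 18170700000)]))
    (.mul (.g 13) (.pp [(1, 7064700000)])))) (.add (.mul (.g 19) (.pp [(1, 2386560000)])) (.add (.mul
    (.g 20) (.pp [(1, 1280580000)])) (.mul (.g 21) (.pp [(1, 765180000)]))))))) (.add (.mul (.g 6)
    (.add (.add (.pp [(1, 7566900000)]) (.mul (.g 1) (.pp [(1, 15764100000)]))) (.add (.mul (.g 6)
    (.pp [(1, 11747700000)])) (.add (.mul (.g 19) (.pp [(1, 1446600000)])) (.mul (.g 21) (.pp [(1,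
    1505820000)])))))) (.mul (.g 17) (.add (.add (.mul (.g 7) (.pp [(1, 25218000000)])) (.mul (.g 8)
    (.pp [(1, 29835600000)]))) (.add (.mul (.g 19) (.pp [(1, 1020240000)])) (.mul (.g 20) (.pp [(1,
    4093740000)]))))))) (.add (.add (.mul (.g 1) (.add (.mul (.g 2) (.pp [(1, 20136900000)])) (.add
    (.mul (.g 8) (.pp [(1, 5981100000)])) (.mul (.g 11) (.pp [(1, 10830900000)]))))) (.mul (.g 13)
    (.add (.mul (.g 7) (.pp [(1, 28998000000)])) (.add (.mul (.g 11) (.pp [(1, 13984500000)])) (.mul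
    (.g 18) (.pp [(1, 3159300000)])))))) (.add (.mul (.g 5) (.add (.pp [(1, 41361900000)]) (.mul (.g
    11) (.pp [(1, 35358900000)])))) (.mul (.g 8) (.mul (.g 21) (.pp [(1, 1292520000)])))))))) (.mul
    (.g 12) (.add (.add (.add (.mul (.pp [(1, 1722630)]) (.sq [(1, -15), (2, 32), (3, 79), (5, 16),
    (7, -63), (13, -59), (17, 100), (19, 3), (23, -1)])) (.add (.mul (.pp [(1, 80400)]) (.sq [(1, 30),
    (2, -16), (3, -48), (5, 100), (7, -20), (13, -45), (17, -59), (19, 41), (23, -20)])) (.mul (.pp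
    [(1, 101820)]) (.sq [(1, 38), (2, 9), (3, -37), (5, 64), (7, -16), (13, 100), (17, -55), (19,
    -87), (23, 22)])))) (.add (.mul (.pp [(1, 799920)]) (.sq [(2, 21), (3, -37), (5, 100), (7, 48),
    (13, -29), (17, -12), (19, -65), (23, -15)])) (.add (.mul (.pp [(1, 830640)]) (.sq [(1, 6), (2,
    34), (3, -17), (5, -49), (7, -22), (13, 100), (17, 56), (19, 18), (23, -55)])) (.mul (.g 1) (.add
    (.add (.pp [(1, 27693900000)]) (.mul (.g 0) (.pp [(1, 702135000)]))) (.add (.mul (.g 3) (.pp [(1,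
    13626600000)])) (.add (.mul (.g 12) (.pp [(1, 1530300000)])) (.mul (.g 17) (.pp [(1,
    3278700000)]))))))))) (.add (.add (.mul (.g 6) (.add (.mul (.g 8) (.pp [(1, 26192100000)])) (.add
    (.mul (.g 11) (.pp [(1, 61202400000)])) (.mul (.g 19) (.pp [(1, 442140000)]))))) (.add (.mul (.g
    21) (.add (.mul (.g 4) (.pp [(1, 1182060000)])) (.add (.mul (.g 9) (.pp [(1, 33300000)])) (.mul
    (.g 18) (.pp [(1, 756300000)]))))) (.mul (.g 5) (.add (.mul (.g 3) (.pp [(1, 43648800000)])) (.mul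
    (.g 18) (.pp [(1, 10473900000)])))))) (.add (.add (.mul (.g 12) (.add (.mul (.g 12) (.pp [(1,
    29673300000)])) (.mul (.g 20) (.pp [(1, 5105700000)])))) (.mul (.g 7) (.pp [(1, 2431200000)])))
    (.add (.mul (.g 16) (.mul (.g 19) (.pp [(1, 16740000)]))) (.mul (.g 17) (.mul (.g 17) (.pp [(1,
    1414200000)]))))))))))) (.add (.add (.mul (.g 0) (.add (.add (.mul (.pp [(1, 25833)]) (.sq [(2,
    96), (3, 39), (5, -100), (7, 64), (13, -11), (17, -91), (19, 60), (23, -4)])) (.add (.mul (.pp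
    [(1, 34254)]) (.sq [(3, 100), (5, -49), (7, 83), (13, -11), (17, 46), (19, -55), (23, -87)]))
    (.mul (.g 1) (.add (.add (.mul (.g 2) (.pp [(1, 4604430000)])) (.mul (.g 8) (.pp [(1,
    155715000)]))) (.add (.mul (.g 15) (.pp [(1, 5389560000)])) (.add (.mul (.g 16) (.pp [(1,
    49320000)])) (.mul (.g 21) (.pp [(1, 1305105000)])))))))) (.add (.add (.mul (.g 5) (.add (.add
    (.mul (.g 3) (.pp [(1, 1024560000)])) (.mul (.g 4) (.pp [(1, 1008975000)]))) (.add (.mul (.g 9)
    (.pp [(1, 1932615000)])) (.mul (.g 21) (.pp [(1, 895515000)]))))) (.mul (.g 6) (.add (.mul (.g 2)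
    (.pp [(1, 3779670000)])) (.add (.mul (.g 16) (.pp [(1, 1124310000)])) (.mul (.g 18) (.pp [(1,
    1589565000)])))))) (.add (.mul (.g 7) (.add (.mul (.g 2) (.pp [(1, 2657580000)])) (.mul (.g 3)
    (.pp [(1, 243525000)])))) (.mul (.g 21) (.mul (.g 21) (.pp [(1, 149944200)]))))))) (.mul (.g 16)
    (.add (.add (.mul (.pp [(1, 220830)]) (.sq [(2, 100), (3, -54), (5, -97), (7, -22), (13, -44),
    (17, 55), (19, 10), (23, 42)])) (.add (.mul (.pp [(1, 18240)]) (.sq [(1, 2), (2, -2), (3, -8), (5,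
    -5), (7, 25), (13, 60), (17, -44), (19, -66), (23, 100)])) (.mul (.g 19) (.add (.add (.mul (.g 1)
    (.pp [(1, 5598480000)])) (.mul (.g 6) (.pp [(1, 4038900000)]))) (.add (.mul (.g 8) (.pp [(1,
    12786660000)])) (.mul (.g 21) (.pp [(1, 283704000)]))))))) (.add (.mul (.g 9) (.add (.mul (.g 8)
    (.pp [(1, 28430100000)])) (.add (.mul (.g 16) (.pp [(1, 12186600000)])) (.mul (.g 17) (.pp [(1,
    42215100000)]))))) (.add (.mul (.g 1) (.mul (.g 4) (.pp [(1, 36588600000)]))) (.mul (.g 18) (.mul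
    (.g 18) (.pp [(1, 12315600000)])))))))) (.add (.mul (.g 18) (.add (.add (.mul (.pp [(1, 35010)])
    (.sq [(1, -48), (2, -45), (3, -90), (5, -100), (7, 76), (13, 94), (17, 16), (19, 19), (23, -8)]))
    (.mul (.g 1) (.add (.mul (.g 4) (.pp [(1, 105119400000)])) (.add (.mul (.g 9) (.pp [(1,
    342900000)])) (.mul (.g 18) (.pp [(1, 99211200000)])))))) (.add (.mul (.g 7) (.add (.mul (.g 6)
    (.pp [(1, 1716300000)])) (.add (.mul (.g 18) (.pp [(1, 33612300000)])) (.mul (.g 20) (.pp [(1,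
    547440000)]))))) (.mul (.g 18) (.mul (.g 21) (.pp [(1, 7466160000)])))))) (.add (.mul (.g 4) (.add
    (.add (.mul (.pp [(1, 58747500000)]) (.sq [(19, -1), (23, 1)])) (.mul (.pp [(1, 1312050)]) (.sq
    [(2, 100), (3, 30), (5, -6), (7, 13), (13, -23), (17, -39), (19, 17), (23, -13)]))) (.add (.mul
    (.g 7) (.add (.mul (.g 5) (.pp [(1, 31348800000)])) (.mul (.g 7) (.pp [(1, 13257000000)])))) (.add
    (.mul (.g 1) (.mul (.g 4) (.pp [(1, 40222200000)]))) (.mul (.g 6) (.mul (.g 6) (.pp [(1,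
    6313200000)]))))))) (.mul (.g 17) (.add (.mul (.pp [(1, 858600)]) (.sq [(1, -24), (3, 16), (5,
    -100), (7, 19), (13, 52), (17, 7), (19, 24), (23, -19)])) (.add (.mul (.pp [(1, 127530)]) (.sq
    [(1, -37), (2, -18), (3, 53), (5, 46), (7, -46), (13, 100), (17, -26), (19, -37), (23, 24)]))
    (.mul (.g 20) (.add (.add (.mul (.g 2) (.pp [(1, 2848500000)])) (.mul (.g 9) (.pp [(1,
    643560000)]))) (.add (.mul (.g 11) (.pp [(1, 4095180000)])) (.mul (.g 17) (.pp [(1,
    1335480000)])))))))))))) (.add (.add (.add (.mul (.g 9) (.add (.add (.mul (.pp [(1, 488100)]) (.sq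
    [(1, -33), (2, 4), (3, -81), (5, -36), (7, -5), (13, 100), (17, -42), (19, 41), (23, -18)])) (.mul
    (.pp [(1, 268110)]) (.sq [(1, -8), (3, -48), (5, -100), (7, 38), (13, 92), (17, 65), (19, -41),
    (23, -25)]))) (.add (.mul (.pp [(1, 2161650)]) (.sq [(1, -26), (2, 16), (3, -23), (5, 36), (7, 1),
    (13, 100), (17, -29), (19, -30), (23, 14)])) (.mul (.pp [(1, 561960)]) (.sq [(1, 13), (2, -41),
    (3, -7), (5, 100), (7, -46), (17, 10), (19, 48), (23, -70)]))))) (.mul (.g 1) (.add (.mul (.pp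
    [(1, 677820)]) (.sq [(1, 20), (2, 2), (3, -43), (5, 68), (13, 100), (17, -58), (19, -91), (23,
    23)])) (.add (.mul (.pp [(1, 872100)]) (.sq [(1, 3), (2, -64), (3, -22), (5, 100), (7, 22), (13,
    92), (17, -63), (19, -5), (23, -19)])) (.mul (.pp [(1, 739590)]) (.sq [(2, 27), (3, -90), (5,
    100), (7, 22), (13, -9), (17, 79), (19, -47), (23, -61)])))))) (.add (.mul (.g 2) (.add (.mul (.pp
    [(1, 786840)]) (.sq [(1, 55), (2, 3), (3, 86), (5, 84), (7, 100), (13, -89), (17, -93), (19, -22),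
    (23, -78)])) (.mul (.g 6) (.mul (.g 20) (.pp [(1, 2458800000)]))))) (.add (.mul (.g 3) (.add (.mul
    (.pp [(1, 2458710)]) (.sq [(1, -31), (2, -49), (3, -40), (5, 38), (7, -25), (13, 100), (17, -12),
    (19, 11), (23, 14)])) (.mul (.pp [(1, 354210)]) (.sq [(1, -57), (2, 39), (3, 43), (5, 100), (7,
    -26), (13, -10), (17, -2), (19, -33), (23, 82)])))) (.mul (.g 5) (.add (.mul (.pp [(1, 435300)])
    (.sq [(1, -25), (2, -30), (3, -31), (5, 39), (7, -87), (13, 100), (17, 55), (19, -78), (23,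
    -57)])) (.mul (.pp [(1, 954000)]) (.sq [(1, -6), (2, 39), (3, -5), (5, 27), (7, -94), (13, -42),
    (17, 100), (19, -7), (23, -13)]))))))) (.add (.add (.mul (.g 19) (.add (.mul (.pp [(1, 148038)])
    (.sq [(1, 12), (2, 1), (3, -60), (5, 34), (7, -26), (13, 100), (17, -6), (19, -4), (23, -24)]))
    (.mul (.pp [(1, 211956)]) (.sq [(1, 30), (2, 8), (3, 19), (5, 100), (7, -78), (13, -40), (17, 41),
    (19, -22), (23, 20)])))) (.add (.mul (.g 21) (.add (.mul (.pp [(1, 260370)]) (.sq [(2, 11), (3,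
    6), (5, 100), (7, 7), (13, -46), (17, 17), (19, 18), (23, -83)])) (.mul (.pp [(1, 30876)]) (.sq
    [(1, 10), (2, 87), (3, 100), (5, -5), (7, 1), (13, -75), (17, -30), (19, 30), (23, -11)])))) (.mul
    (.g 7) (.mul (.pp [(1, 439320)]) (.sq [(1, -11), (2, 100), (3, 3), (5, -62), (7, -16), (13, 31),
    (17, 7), (19, 9), (23, -55)]))))) (.add (.mul (.g 11) (.mul (.pp [(1, 458970)]) (.sq [(1, -5), (2,
    -2), (3, -40), (5, 100), (7, -25), (13, -29), (17, 76), (19, -11), (23, -13)]))) (.add (.mul (.g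
    15) (.mul (.pp [(1, 493410)]) (.sq [(1, -71), (2, 30), (3, -32), (5, 70), (7, -54), (13, -4), (17,
    100), (19, 50), (23, -22)]))) (.mul (.g 20) (.mul (.pp [(1, 51192)]) (.sq [(1, -11), (2, -2), (3,
    68), (5, 29), (7, -31), (13, -81), (17, 100), (19, 25), (23, -43)])))))))) (.pp [(1, 1568799408),
    (2, 3205950), (3, 2925336), (4, 2998632), (5, 3077964), (6, 3179412), (7, 2791434), (8, 3078840),
    (9, 2891997), (10, 3446364), (12, 3071430), (13, 3246198), (14, 2273868), (15, 3373476), (17,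
    3559146), (18, 3328890), (19, 2655954), (20, 2973120), (21, 2974116), (23, 3379578), (25,
    2999292), (26, 3499188), (27, 2940870), (28, 3098850), (30, 3476760), (34, 3102672), (35,
    3225372), (38, 3248568), (39, 4107774), (42, 3065220), (45, 3135960), (46, 2760060), (49,
    2941422), (50, 3062310), (51, 2672574), (52, 2860830), (57, 2605908), (63, 2728440), (65,
    2115324), (68, 2997330), (69, 3147180), (70, 3244740), (75, 3152610), (76, 3032970), (78,
    2696940), (85, 3066276), (91, 3676704), (92, 3101610), (95, 3495168), (98, 3157020), (102,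
    2599380), (105, 3188760), (114, 2776980), (115, 2723304), (117, 2742540), (119, 3306960), (125,
    3059500), (130, 2878800), (133, 3477432), (138, 2784180), (147, 2868270), (153, 3707130), (161,
    2332776), (169, 1966035), (170, 2688660), (171, 3100410), (175, 2882220), (182, 2771820), (190,
    2905140), (195, 2412180), (207, 3088950), (221, 2941494), (230, 2576580), (238, 3250620), (245,
    3190710), (247, 3279900), (255, 2919660), (266, 2834940), (273, 3048360), (285, 3116520), (289,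
    2304879), (299, 2484684), (322, 3129900), (323, 2456640), (325, 2950260), (338, 3268650), (343,
    2359750), (345, 2732760), (357, 3323460), (361, 2764794), (391, 3457332), (399, 3423060), (425,
    2966910), (437, 3318132), (442, 2857800), (455, 2904120), (475, 2985720), (483, 3100620), (494,
    2522820), (507, 2695080), (529, 2869836), (575, 3064410), (578, 3039150), (595, 2796420), (598,
    2852700), (637, 3078150), (646, 2701860), (663, 2889720), (665, 2974080), (722, 2992470), (741,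
    2862780), (782, 3211080), (805, 3135060), (833, 3227850), (845, 3107280), (867, 2423010), (874,
    3232980), (897, 3015180), (931, 3776250), (969, 3073920), (1058, 3132810), (1083, 2929620), (1105,
    3236400), (1127, 4057770), (1173, 2597580), (1183, 3121800), (1235, 3101640), (1311, 3171060),
    (1445, 3346230), (1495, 3148980), (1547, 2527620), (1587, 2791320), (1615, 2371140), (1729,
    2618220), (1805, 3001170), (1955, 3125160), (2023, 2728200), (2093, 3182160), (2185, 2689080),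
    (2197, 3192150), (2261, 2496060), (2527, 2601960), (2645, 3134670), (2737, 3059520), (2873,
    3241740), (3059, 2013600), (3211, 3220140), (3703, 2080920), (3757, 2861280), (3887, 3276270),
    (4199, 3498480), (4693, 2975340), (4913, 3553410), (5083, 3198240), (5491, 3233610), (5681,
    2834640), (6137, 3379770), (6647, 3012540), (6859, 3223060), (6877, 2870520), (7429, 2771400),
    (8303, 3498180), (8993, 2944440), (10051, 3078300), (12167, 3579910)])) (by norm_num)
    (by decide +kernel)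

theorem ckG1 : Ck gGB pG1 :=
  .mk' 1000000 (.add (.add (.add (.add (.add (.mul (.g 10) (.add (.add (.add (.mul (.pp [(1, 457080)]) (.sq [(2,
    100), (3, 49), (5, 28), (7, -77), (11, -51), (13, 63), (19, -23), (23, 80)])) (.add (.mul (.pp
    [(1, 313020)]) (.sq [(1, 1), (2, 100), (3, 9), (5, 49), (7, -5), (11, 26), (13, -40), (19, -61),
    (23, 30)])) (.mul (.pp [(1, 2182320)]) (.sq [(2, 65), (3, 26), (5, -16), (7, 1), (11, 100), (13,
    -40), (19, 22), (23, 11)])))) (.add (.add (.mul (.g 17) (.add (.add (.pp [(1, 17083200000)]) (.add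
    (.mul (.g 6) (.pp [(1, 54798600000)])) (.mul (.g 8) (.pp [(1, 17694000000)])))) (.add (.mul (.g
    13) (.pp [(1, 11553000000)])) (.add (.mul (.g 20) (.pp [(1, 6832560000)])) (.mul (.g 21) (.pp [(1,
    2551320000)])))))) (.mul (.g 7) (.add (.add (.mul (.g 8) (.pp [(1, 42654000000)])) (.mul (.g 16)
    (.pp [(1, 87859200000)]))) (.add (.mul (.g 18) (.pp [(1, 28285800000)])) (.mul (.g 22) (.pp [(1,
    44267640000)])))))) (.add (.mul (.g 6) (.add (.pp [(1, 12672600000)]) (.add (.mul (.g 13) (.pp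
    [(1, 2304000000)])) (.mul (.g 22) (.pp [(1, 18129480000)]))))) (.mul (.g 8) (.add (.pp [(1,
    99259200000)]) (.add (.mul (.g 11) (.pp [(1, 116153400000)])) (.mul (.g 19) (.pp [(1,
    327873000000)])))))))) (.add (.add (.mul (.g 18) (.add (.mul (.g 11) (.pp [(1, 68854200000)]))
    (.add (.mul (.g 21) (.pp [(1, 2487120000)])) (.mul (.g 22) (.pp [(1, 9810960000)]))))) (.add (.mul
    (.g 1) (.add (.pp [(1, 27259200000)]) (.mul (.g 2) (.pp [(1, 69174000000)])))) (.mul (.g 10) (.add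
    (.mul (.g 19) (.pp [(1, 228592200000)])) (.mul (.g 20) (.pp [(1, 679320000)])))))) (.add (.add
    (.mul (.g 12) (.add (.mul (.g 4) (.pp [(1, 92561400000)])) (.mul (.g 14) (.pp [(1,
    16284600000)])))) (.mul (.g 2) (.mul (.g 11) (.pp [(1, 27366000000)])))) (.add (.mul (.g 5) (.pp
    [(1, 381350400000)])) (.mul (.g 19) (.mul (.g 22) (.pp [(1, 452400000)])))))))) (.mul (.g 1) (.add
    (.add (.add (.mul (.pp [(1, 365280)]) (.sq [(2, -100), (3, -25), (5, -7), (7, 98), (11, -55), (13,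
    15), (19, 21), (23, 56)])) (.add (.mul (.pp [(1, 1402140)]) (.sq [(2, -39), (3, -77), (5, 100),
    (7, 25), (11, 10), (13, 15), (19, -19), (23, 39)])) (.mul (.pp [(1, 177000)]) (.sq [(2, -26), (3,
    100), (5, 49), (7, -51), (11, 97), (13, 29), (19, -86), (23, -72)])))) (.add (.mul (.pp [(1,
    5416200)]) (.sq [(2, -35), (3, 52), (5, -45), (7, -28), (11, 100), (13, -20), (19, 78), (23,
    77)])) (.add (.mul (.pp [(1, 501240)]) (.sq [(2, -24), (3, 33), (5, 76), (7, 1), (11, 57), (13,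
    -100), (19, -15), (23, -14)])) (.mul (.g 19) (.add (.add (.pp [(1, 240293400000)]) (.mul (.g 7)
    (.pp [(1, 63425400000)]))) (.add (.mul (.g 9) (.pp [(1, 52746000000)])) (.mul (.g 19) (.pp [(1,
    63277800000)])))))))) (.add (.add (.mul (.g 8) (.add (.pp [(1, 475114800000)]) (.add (.mul (.g 7)
    (.pp [(1, 55621800000)])) (.mul (.g 12) (.pp [(1, 8916600000)]))))) (.add (.mul (.g 0) (.add (.pp
    [(1, 12943200000)]) (.mul (.g 0) (.pp [(1, 447291000)])))) (.mul (.g 3) (.add (.mul (.g 7) (.pp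
    [(1, 135983400000)])) (.mul (.g 17) (.pp [(1, 75579600000)])))))) (.add (.add (.mul (.g 11) (.add
    (.pp [(1, 1884000000)]) (.mul (.g 22) (.pp [(1, 25303440000)])))) (.mul (.g 14) (.add (.pp [(1,
    56113800000)]) (.mul (.g 22) (.pp [(1, 6357720000)]))))) (.add (.mul (.g 18) (.add (.pp [(1,
    93397200000)]) (.mul (.g 12) (.pp [(1, 30684600000)])))) (.mul (.g 13) (.mul (.g 13) (.pp [(1,
    122290800000)]))))))))) (.add (.mul (.g 14) (.add (.add (.add (.add (.mul (.pp [(1, 43473600)])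
    (.sq [(2, 25), (7, 3), (11, -25), (23, -3)])) (.mul (.pp [(1, 1757460)]) (.sq [(1, -37), (2, 59),
    (3, -29), (5, 52), (7, 42), (11, 39), (13, -38), (19, -100), (23, 100)]))) (.add (.mul (.pp [(1,
    997500)]) (.sq [(2, -63), (3, 12), (5, -43), (7, -15), (11, -56), (13, 21), (19, -4), (23, 100)]))
    (.mul (.pp [(1, 78300)]) (.sq [(2, -32), (3, -75), (5, 86), (7, -93), (11, 100), (13, 59), (19,
    5), (23, -14)])))) (.add (.add (.mul (.pp [(1, 211500)]) (.sq [(1, -13), (2, -66), (3, -19), (5,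
    18), (7, 9), (11, -100), (13, -79), (19, -8), (23, 40)])) (.mul (.pp [(1, 210540)]) (.sq [(2,
    -100), (3, -35), (5, -13), (7, 14), (11, -29), (13, -32), (19, 73), (23, -68)]))) (.add (.mul (.pp
    [(1, 1337400)]) (.sq [(2, 19), (3, 55), (5, 8), (7, -2), (11, -27), (13, 100), (19, -56), (23,
    44)])) (.mul (.pp [(1, 584340)]) (.sq [(2, -2), (3, 17), (5, 100), (7, -27), (11, -91), (13, -20),
    (19, 30), (23, -13)]))))) (.add (.add (.add (.mul (.pp [(1, 27218880)]) (.sq [(2, 3), (7, -25),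
    (11, -3), (23, 25)])) (.mul (.pp [(1, 11460)]) (.sq [(1, -71), (2, -56), (3, 18), (5, 98), (7,
    38), (11, 53), (13, 71), (19, -76), (23, 100)]))) (.add (.mul (.g 17) (.add (.add (.mul (.g 12)
    (.pp [(1, 12517800000)])) (.mul (.g 18) (.pp [(1, 16618200000)]))) (.add (.mul (.g 20) (.pp [(1,
    4992120000)])) (.mul (.g 22) (.pp [(1, 7982760000)]))))) (.mul (.g 5) (.add (.pp [(1,
    66093000000)]) (.mul (.g 2) (.pp [(1, 61440000000)])))))) (.add (.add (.mul (.g 7) (.add (.mul (.g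
    8) (.pp [(1, 21117600000)])) (.mul (.g 11) (.pp [(1, 21116400000)])))) (.mul (.g 6) (.mul (.g 14)
    (.pp [(1, 23089800000)])))) (.add (.mul (.g 11) (.mul (.g 12) (.pp [(1, 32932800000)]))) (.mul (.g
    13) (.mul (.g 18) (.pp [(1, 40697400000)])))))))) (.add (.mul (.g 11) (.add (.add (.add (.mul (.pp
    [(1, 523500)]) (.sq [(1, 23), (2, -53), (3, 100), (5, -71), (7, -39), (11, -1), (13, 29), (19,
    28), (23, -6)])) (.add (.mul (.pp [(1, 87360)]) (.sq [(2, -19), (3, 36), (5, 78), (7, -9), (11,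
    8), (13, -100), (19, 10), (23, 25)])) (.mul (.pp [(1, 567060)]) (.sq [(1, -8), (2, 6), (3, 7), (5,
    100), (7, -13), (11, 23), (13, -5), (19, -9)])))) (.add (.mul (.pp [(1, 1530660)]) (.sq [(2, 40),
    (3, 100), (5, 23), (7, -60), (11, 67), (13, 6), (19, -18), (23, 55)])) (.add (.mul (.pp [(1,
    6811560)]) (.sq [(1, -18), (2, 36), (3, 5), (5, -30), (7, -27), (11, 100), (13, -8), (19, 1), (23,
    -6)])) (.mul (.pp [(1, 243600)]) (.sq [(2, 30), (3, 100), (5, -4), (7, -67), (11, -22), (13, -7),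
    (19, 15), (23, -58)]))))) (.add (.add (.mul (.g 18) (.add (.mul (.g 2) (.pp [(1, 58162800000)]))
    (.add (.mul (.g 12) (.pp [(1, 30627600000)])) (.mul (.g 21) (.pp [(1, 7924800000)]))))) (.add
    (.mul (.g 3) (.add (.mul (.g 5) (.pp [(1, 54091200000)])) (.mul (.g 20) (.pp [(1, 801600000)]))))
    (.mul (.g 9) (.add (.mul (.g 11) (.pp [(1, 18261600000)])) (.mul (.g 22) (.pp [(1,
    8212200000)])))))) (.add (.add (.mul (.g 4) (.mul (.g 11) (.pp [(1, 12681600000)]))) (.mul (.g 5)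
    (.mul (.g 22) (.pp [(1, 4327080000)])))) (.add (.mul (.g 7) (.mul (.g 20) (.pp [(1,
    4488960000)]))) (.mul (.g 13) (.mul (.g 17) (.pp [(1, 869400000)])))))))) (.mul (.g 8) (.add (.add
    (.mul (.pp [(1, 4070760)]) (.sq [(1, 1), (2, -52), (3, -50), (5, 100), (7, -41), (11, -32), (13,
    49), (19, -34), (23, 55)])) (.add (.mul (.pp [(1, 375660)]) (.sq [(2, 7), (3, 17), (5, -77), (7,
    60), (11, 2), (13, -100), (19, 1), (23, 9)])) (.mul (.g 8) (.add (.add (.mul (.g 9) (.pp [(1,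
    177343800000)])) (.mul (.g 13) (.pp [(1, 31801800000)]))) (.add (.mul (.g 17) (.pp [(1,
    129110400000)])) (.add (.mul (.g 18) (.pp [(1, 167733000000)])) (.mul (.g 19) (.pp [(1,
    87522600000)])))))))) (.add (.add (.mul (.g 18) (.add (.add (.pp [(1, 47514600000)]) (.mul (.g 12)
    (.pp [(1, 37540800000)]))) (.add (.mul (.g 20) (.pp [(1, 57836160000)])) (.mul (.g 21) (.pp [(1,
    3439320000)]))))) (.mul (.g 7) (.add (.mul (.g 4) (.pp [(1, 83143200000)])) (.mul (.g 7) (.pp [(1,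
    30308400000)]))))) (.add (.mul (.g 20) (.add (.mul (.g 6) (.pp [(1, 33093960000)])) (.mul (.g 20)
    (.pp [(1, 14658864000)])))) (.mul (.g 13) (.mul (.g 13) (.pp [(1, 15427200000)])))))))))) (.add
    (.add (.mul (.g 3) (.add (.add (.add (.mul (.pp [(1, 231180)]) (.sq [(1, -26), (2, -20), (3, -56),
    (5, 61), (7, -4), (11, 100), (13, 26), (19, 9), (23, -9)])) (.mul (.pp [(1, 1504680)]) (.sq [(2,
    -79), (3, 25), (5, 3), (11, 100), (13, 19), (19, -23), (23, 40)]))) (.add (.mul (.pp [(1,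
    882480)]) (.sq [(1, 19), (2, 51), (3, 1), (5, -90), (7, 1), (11, 45), (13, -92), (19, 100), (23,
    -93)])) (.mul (.pp [(1, 3506820)]) (.sq [(1, -18), (2, 5), (3, -3), (5, -3), (7, -20), (11, 21),
    (13, 100), (19, 22), (23, -63)])))) (.add (.add (.mul (.pp [(1, 1091760)]) (.sq [(1, -45), (2,
    46), (3, 82), (5, 92), (7, 7), (11, 13), (13, -100), (19, 21), (23, 16)])) (.mul (.g 5) (.add
    (.mul (.g 0) (.pp [(1, 9606240000)])) (.mul (.g 13) (.pp [(1, 51944400000)]))))) (.add (.mul (.g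
    6) (.mul (.g 6) (.pp [(1, 94593600000)]))) (.mul (.g 20) (.mul (.g 22) (.pp [(1,
    2369688000)]))))))) (.mul (.g 18) (.add (.add (.mul (.g 22) (.add (.mul (.g 2) (.pp [(1,
    538080000)])) (.add (.mul (.g 17) (.pp [(1, 11581440000)])) (.mul (.g 22) (.pp [(1,
    1465848000)]))))) (.add (.mul (.g 12) (.add (.mul (.g 13) (.pp [(1, 196027800000)])) (.mul (.g 20)
    (.pp [(1, 1267560000)])))) (.mul (.g 6) (.mul (.g 13) (.pp [(1, 17014200000)]))))) (.add (.mul (.g
    7) (.mul (.g 7) (.pp [(1, 46774800000)]))) (.add (.mul (.g 18) (.mul (.g 18) (.pp [(1,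
    9431400000)]))) (.mul (.g 20) (.mul (.g 21) (.pp [(1, 1053624000)])))))))) (.add (.mul (.g 5)
    (.add (.add (.mul (.pp [(1, 9151560)]) (.sq [(1, -28), (2, 38), (5, -28), (7, -39), (11, 100),
    (13, -9), (19, 8), (23, -8)])) (.add (.mul (.pp [(1, 368520)]) (.sq [(1, 21), (2, 34), (3, -30),
    (5, 100), (7, -45), (11, 6), (13, 28), (19, -43), (23, -40)])) (.mul (.pp [(1, 666720)]) (.sq [(2,
    37), (3, 100), (5, -18), (7, -22), (11, -21), (13, -11), (19, 15), (23, -79)])))) (.add (.add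
    (.mul (.pp [(1, 180300)]) (.sq [(2, 51), (3, 51), (5, -100), (7, -73), (11, 51), (13, 51), (19,
    51), (23, -33)])) (.mul (.pp [(1, 206760)]) (.sq [(1, 80), (2, 100), (3, 11), (11, -99), (13, 49),
    (19, -61)]))) (.add (.mul (.g 13) (.mul (.g 13) (.pp [(1, 132022200000)]))) (.mul (.g 20) (.mul
    (.g 22) (.pp [(1, 2397840000)]))))))) (.add (.mul (.g 13) (.add (.add (.mul (.pp [(1, 2213880)])
    (.sq [(2, -93), (3, -53), (5, 100), (7, 40), (11, -5), (13, -21), (19, -41), (23, 15)])) (.mul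
    (.pp [(1, 1983660)]) (.sq [(2, 100), (3, 48), (5, -36), (7, 69), (11, -88), (13, -25), (19, -81),
    (23, -6)]))) (.add (.mul (.pp [(1, 1624140)]) (.sq [(1, 21), (2, -4), (3, -1), (5, -10), (7, 24),
    (11, 32), (13, -100), (19, 1), (23, 51)])) (.mul (.g 13) (.add (.mul (.g 6) (.pp [(1,
    41113200000)])) (.mul (.g 21) (.pp [(1, 1932120000)]))))))) (.mul (.g 20) (.add (.add (.mul (.pp
    [(1, 206388)]) (.sq [(2, -5), (3, 1), (5, -12), (7, -25), (11, 25), (13, -100), (19, 82), (23,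
    43)])) (.mul (.pp [(1, 3975852)]) (.sq [(2, 100), (3, -32), (5, 9), (11, -2), (13, -7), (19,
    -1)]))) (.add (.mul (.pp [(1, 188616)]) (.sq [(1, -43), (2, 51), (3, 1), (5, -100), (7, 21), (11,
    -1), (13, -24), (19, 66), (23, -10)])) (.add (.mul (.g 17) (.mul (.g 17) (.pp [(1,
    12205080000)]))) (.mul (.g 20) (.mul (.g 20) (.pp [(1, 351782400)]))))))))))) (.add (.add (.add
    (.mul (.g 22) (.add (.mul (.pp [(1, 92448)]) (.sq [(1, -45), (2, -57), (3, 90), (5, 100), (7, 71),
    (11, -53), (13, -43), (19, 25), (23, -1)])) (.add (.mul (.pp [(1, 456504)]) (.sq [(1, -1), (2,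
    -2), (3, 5), (5, 100), (7, -28), (11, -22), (13, 7), (19, -15), (23, -4)])) (.mul (.g 22) (.add
    (.mul (.g 0) (.pp [(1, 119200800)])) (.mul (.g 22) (.pp [(1, 614083200)]))))))) (.mul (.g 7) (.add
    (.mul (.pp [(1, 1246380)]) (.sq [(1, 20), (2, 93), (3, 39), (5, 100), (7, -63), (11, -63), (13,
    8), (19, -43), (23, 1)])) (.add (.mul (.pp [(1, 1264740)]) (.sq [(1, -100), (2, 51), (5, 26), (13,
    85), (19, 85), (23, -26)])) (.mul (.pp [(1, 1616520)]) (.sq [(1, 24), (2, 84), (3, -32), (5, -44),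
    (7, -32), (11, 100), (13, 9), (19, -32), (23, 38)])))))) (.add (.mul (.g 21) (.add (.mul (.pp [(1,
    22104720000)]) (.sq [(2, 1), (11, -1)])) (.add (.mul (.pp [(1, 120408)]) (.sq [(1, 35), (2, -1),
    (3, -49), (5, 100), (7, 59), (11, -100), (13, -3), (19, -90), (23, -2)])) (.mul (.pp [(1,
    1076088)]) (.sq [(2, -48), (3, 16), (5, 36), (7, -64), (11, 43), (13, 100), (19, -15), (23,
    15)]))))) (.add (.mul (.g 4) (.add (.mul (.pp [(1, 271620)]) (.sq [(1, -5), (2, -12), (3, 69), (5,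
    -18), (7, -27), (11, -3), (13, 100), (19, -14), (23, -19)])) (.mul (.pp [(1, 13787880)]) (.sq [(1,
    -50), (2, -10), (3, -4), (5, 8), (7, -12), (11, 24), (13, 100), (19, -8), (23, 5)])))) (.mul (.g
    9) (.add (.mul (.pp [(1, 4770360)]) (.sq [(1, -9), (2, -18), (3, 9), (5, 80), (7, -100), (11, 16),
    (13, 1), (19, 56), (23, 16)])) (.mul (.pp [(1, 238680)]) (.sq [(1, 99), (2, 35), (3, -33), (5,
    84), (7, -13), (11, -100), (13, -26), (19, -86), (23, 20)]))))))) (.add (.add (.mul (.g 16) (.add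
    (.mul (.pp [(1, 258900)]) (.sq [(1, 10), (2, 100), (3, -61), (5, -18), (7, -24), (11, -31), (13,
    65), (19, -59), (23, -6)])) (.mul (.pp [(1, 662040)]) (.sq [(1, 26), (2, 80), (3, -14), (5, 12),
    (7, 79), (11, -83), (13, 1), (19, -100), (23, -5)])))) (.add (.mul (.g 0) (.mul (.pp [(1, 57453)])
    (.sq [(2, -57), (3, -100), (5, -5), (7, 43), (11, -72), (13, -8), (19, 23), (23, -69)]))) (.mul
    (.g 2) (.mul (.pp [(1, 5742000)]) (.sq [(1, -14), (2, 41), (3, -1), (5, -35), (7, -31), (11, 100),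
    (13, 45), (19, -18), (23, 38)]))))) (.add (.mul (.g 6) (.mul (.pp [(1, 92280)]) (.sq [(2, -17),
    (3, 100), (5, 99), (7, -49), (11, 17), (13, 17), (19, 62), (23, -91)]))) (.add (.mul (.g 17) (.mul
    (.pp [(1, 1629420)]) (.sq [(1, 51), (2, -62), (3, 3), (5, -100), (7, 58), (11, 6), (13, 31), (19,
    -61), (23, 15)]))) (.mul (.g 19) (.mul (.pp [(1, 4103460)]) (.sq [(1, -1), (2, 43), (3, -1), (5,
    -32), (7, 9), (11, 100), (13, -41), (19, -1), (23, 15)])))))))) (.pp [(1, 8776717116), (2,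
    6696900), (3, 5887548), (4, 6021909), (5, 6684540), (6, 5476536), (7, 6055836), (8, 6059100), (9,
    5152056), (10, 6723114), (11, 5494164), (12, 5607000), (13, 5760456), (14, 6744234), (15,
    6729984), (18, 6057960), (19, 5292708), (20, 5927100), (21, 6489024), (22, 5540856), (23,
    5885844), (25, 5378769), (26, 5428536), (27, 6077340), (28, 5849580), (30, 5866800), (33,
    6649344), (35, 4381962), (38, 4170306), (39, 6643800), (42, 6294600), (44, 5544580), (45,
    6413340), (46, 5850330), (49, 4282413), (50, 5597340), (52, 6124800), (55, 6093792), (57,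
    4178904), (63, 6971580), (65, 6450456), (66, 5867640), (69, 6106872), (70, 6156480), (75,
    6287640), (76, 6141240), (77, 4624104), (78, 5604360), (91, 6677976), (92, 6053940), (95,
    6084810), (98, 6348780), (99, 5806800), (105, 5421840), (110, 6747960), (114, 6253080), (115,
    6233058), (117, 6286800), (121, 6651744), (125, 6056960), (130, 5863320), (133, 7889466), (138,
    6161160), (143, 6367200), (147, 5138880), (154, 5723880), (161, 7966818), (165, 5412120), (169,
    5672784), (171, 5585820), (175, 7122660), (182, 5295600), (190, 5664120), (195, 5532120), (207,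
    5577780), (209, 6661944), (230, 5397600), (231, 6675840), (242, 6116380), (245, 6755700), (247,
    6252648), (253, 6721368), (266, 6059520), (273, 5759400), (275, 5439600), (285, 6295320), (286,
    6561960), (299, 5743536), (322, 6264480), (325, 6003480), (338, 6233640), (343, 6395980), (345,
    6172680), (361, 6196761), (363, 5045880), (385, 6889800), (399, 5270640), (418, 5961360), (429,
    5916000), (437, 6161706), (455, 5553360), (475, 5829540), (483, 7734600), (494, 6792600), (506,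
    6082560), (507, 5961600), (529, 5026581), (539, 7596780), (575, 6099720), (598, 5637600), (605,
    6367200), (627, 5105640), (637, 6199860), (665, 5493120), (715, 5760120), (722, 6373560), (741,
    6291360), (759, 6287400), (805, 5945520), (845, 5938860), (847, 6075360), (874, 6804480), (897,
    6563760), (931, 4856640), (1001, 5890200), (1045, 5576880), (1058, 5184120), (1083, 7048320),
    (1127, 3801000), (1183, 5951520), (1235, 5981400), (1265, 5627400), (1311, 6237720), (1331,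
    5517880), (1463, 5306520), (1495, 6381720), (1573, 6480600), (1587, 4906140), (1729, 6751080),
    (1771, 5788080), (1805, 6264300), (1859, 5784240), (2093, 5580840), (2185, 5767440), (2197,
    6206220), (2299, 5540400), (2527, 5759640), (2645, 6026820), (2717, 5841600), (2783, 5930280),
    (3059, 8229360), (3211, 6037320), (3289, 5431800), (3703, 7390140), (3887, 6443220), (3971,
    6247200), (4693, 5409360), (4807, 6571440), (5681, 5332440), (5819, 5241540), (6859, 5991780),
    (6877, 6252120), (8303, 5587260), (10051, 4389720), (12167, 6527720)])) (by norm_num)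
    (by decide +kernel)

theorem ckG2 : Ck gGB pG2 :=
  .mk' 1000000 (.add (.add (.add (.add (.add (.mul (.g 8) (.add (.add (.add (.mul (.pp [(1, 2282100)]) (.sq [(1,
    -7), (2, -97), (3, 17), (5, 64), (7, 58), (11, 100), (13, 72), (19, -17), (23, 40)])) (.mul (.pp
    [(1, 520260)]) (.sq [(1, 100), (3, 85), (7, -57), (13, -57), (19, -57), (23, 85)]))) (.add (.mul
    (.g 8) (.add (.add (.mul (.g 3) (.pp [(1, 25237800000)])) (.mul (.g 9) (.pp [(1, 81409200000)])))
    (.add (.mul (.g 10) (.pp [(1, 73415400000)])) (.add (.mul (.g 17) (.pp [(1, 288627600000)])) (.mul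
    (.g 18) (.pp [(1, 101662200000)])))))) (.add (.mul (.g 20) (.add (.add (.pp [(1, 96046320000)])
    (.mul (.g 1) (.pp [(1, 3320280000)]))) (.add (.mul (.g 7) (.pp [(1, 12857760000)])) (.add (.mul
    (.g 11) (.pp [(1, 6066240000)])) (.mul (.g 13) (.pp [(1, 17942640000)])))))) (.mul (.g 14) (.add
    (.add (.pp [(1, 48608400000)]) (.mul (.g 3) (.pp [(1, 17999400000)]))) (.add (.mul (.g 19) (.pp
    [(1, 60460800000)])) (.mul (.g 21) (.pp [(1, 25715880000)])))))))) (.add (.add (.mul (.g 7) (.add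
    (.pp [(1, 290459400000)]) (.add (.mul (.g 4) (.pp [(1, 9500400000)])) (.mul (.g 7) (.pp [(1,
    9128400000)]))))) (.add (.mul (.g 18) (.add (.mul (.g 1) (.pp [(1, 65777400000)])) (.add (.mul (.g
    3) (.pp [(1, 100336200000)])) (.mul (.g 5) (.pp [(1, 72811200000)]))))) (.mul (.g 22) (.add (.mul
    (.g 11) (.pp [(1, 1287720000)])) (.add (.mul (.g 21) (.pp [(1, 338664000)])) (.mul (.g 22) (.pp
    [(1, 647736000)]))))))) (.add (.mul (.g 10) (.add (.pp [(1, 150532800000)]) (.mul (.g 19) (.pp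
    [(1, 25605000000)])))) (.add (.mul (.g 1) (.pp [(1, 632061600000)])) (.mul (.g 3) (.mul (.g 6)
    (.pp [(1, 45950400000)])))))))) (.mul (.g 20) (.add (.add (.add (.mul (.pp [(1, 201600)]) (.sq
    [(1, -15), (2, 36), (3, -3), (5, -22), (7, 36), (11, -100), (13, -64), (19, 75), (23, -65)]))
    (.add (.mul (.pp [(1, 151308)]) (.sq [(3, 100), (5, 81), (19, -33), (23, -49)])) (.mul (.pp [(1,
    5673348)]) (.sq [(2, 100), (3, -7), (5, -7), (7, -7), (11, -65), (13, -7), (19, -7), (23, -7)]))))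
    (.add (.add (.mul (.pp [(1, 344664)]) (.sq [(3, -9), (5, 26), (7, 59), (11, 97), (13, -100), (19,
    -39), (23, 25)])) (.mul (.pp [(1, 134928)]) (.sq [(3, 100), (5, -71), (23, 70)]))) (.add (.mul
    (.pp [(1, 300648)]) (.sq [(2, 100), (3, -55), (5, 5), (7, -9), (11, 32), (13, 77), (19, -1), (23,
    40)])) (.mul (.g 14) (.add (.add (.pp [(1, 31658760000)]) (.mul (.g 3) (.pp [(1, 2781120000)])))
    (.add (.mul (.g 6) (.pp [(1, 1837080000)])) (.add (.mul (.g 18) (.pp [(1, 9435600000)])) (.mul (.g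
    19) (.pp [(1, 1475880000)]))))))))) (.add (.add (.add (.mul (.g 18) (.add (.mul (.g 6) (.pp [(1,
    14254320000)])) (.add (.mul (.g 19) (.pp [(1, 13319520000)])) (.mul (.g 20) (.pp [(1,
    47688000)]))))) (.mul (.g 5) (.add (.pp [(1, 38038320000)]) (.mul (.g 21) (.pp [(1,
    3860352000)]))))) (.add (.mul (.g 11) (.add (.mul (.g 17) (.pp [(1, 10118400000)])) (.mul (.g 21)
    (.pp [(1, 2432616000)])))) (.mul (.g 20) (.add (.pp [(1, 8156592000)]) (.mul (.g 6) (.pp [(1,
    1683576000)])))))) (.add (.add (.mul (.g 1) (.pp [(1, 27970560000)])) (.mul (.g 2) (.mul (.g 7)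
    (.pp [(1, 7511040000)])))) (.add (.mul (.g 10) (.mul (.g 17) (.pp [(1, 15434160000)]))) (.mul (.g
    19) (.pp [(1, 4249440000)])))))))) (.add (.mul (.g 11) (.add (.add (.add (.mul (.pp [(1, 209700)])
    (.sq [(1, 7), (2, 51), (3, -5), (5, 92), (7, -87), (11, -100), (13, -64), (19, 30), (23, 95)]))
    (.add (.mul (.pp [(1, 950940)]) (.sq [(2, -90), (3, 82), (5, -20), (7, -66), (11, -100), (13, 48),
    (19, -32), (23, 79)])) (.mul (.pp [(1, 352980)]) (.sq [(2, 60), (3, 58), (5, -19), (7, 100), (11,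
    25), (13, 68), (19, -30), (23, -38)])))) (.add (.mul (.pp [(1, 1645800)]) (.sq [(1, 1), (2, 40),
    (3, -25), (5, 90), (7, 24), (11, 39), (13, 31), (19, -100), (23, 4)])) (.add (.mul (.pp [(1,
    1819080)]) (.sq [(3, -1), (5, 100), (7, 1), (11, 100), (13, -11), (19, -9), (23, 2)])) (.mul (.g
    18) (.add (.add (.mul (.g 0) (.pp [(1, 4636860000)])) (.mul (.g 7) (.pp [(1, 57313800000)])))
    (.add (.mul (.g 13) (.pp [(1, 172762200000)])) (.mul (.g 17) (.pp [(1, 16796400000)])))))))) (.add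
    (.add (.mul (.g 3) (.add (.mul (.g 0) (.pp [(1, 3039240000)])) (.add (.mul (.g 11) (.pp [(1,
    16900800000)])) (.mul (.g 12) (.pp [(1, 26924400000)]))))) (.add (.mul (.g 1) (.add (.mul (.g 6)
    (.pp [(1, 46796400000)])) (.mul (.g 22) (.pp [(1, 24489960000)])))) (.mul (.g 14) (.add (.pp [(1,
    129311400000)]) (.mul (.g 21) (.pp [(1, 14831280000)])))))) (.add (.add (.mul (.g 10) (.mul (.g
    17) (.pp [(1, 49762800000)]))) (.mul (.g 11) (.pp [(1, 80199600000)]))) (.add (.mul (.g 13) (.pp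
    [(1, 106312200000)])) (.mul (.g 22) (.pp [(1, 11090280000)]))))))) (.add (.mul (.g 10) (.add (.add
    (.add (.mul (.pp [(1, 3775200)]) (.sq [(2, -87), (3, -49), (5, -4), (7, 100), (11, -9), (13, 3),
    (19, -68), (23, 31)])) (.add (.mul (.pp [(1, 454800)]) (.sq [(3, -1), (5, 67), (7, 92), (11, -62),
    (13, -100), (19, 54), (23, 47)])) (.mul (.pp [(1, 2044440)]) (.sq [(2, 41), (3, -100), (5, -2),
    (7, -57), (11, -97), (13, 16), (19, -47), (23, 6)])))) (.add (.mul (.pp [(1, 845820)]) (.sq [(2,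
    58), (3, -100), (5, -28), (7, 8), (11, 99), (13, 15), (19, 64), (23, 1)])) (.add (.mul (.pp [(1,
    2474580)]) (.sq [(2, -1), (3, 100), (5, 85), (7, 11), (11, 20), (13, 27), (19, -20), (23, -34)]))
    (.mul (.g 7) (.add (.pp [(1, 107184000000)]) (.add (.mul (.g 16) (.pp [(1, 13236600000)])) (.mul
    (.g 17) (.pp [(1, 37473600000)])))))))) (.add (.add (.mul (.g 14) (.add (.pp [(1, 3945000000)])
    (.mul (.g 19) (.pp [(1, 50394600000)])))) (.add (.mul (.g 22) (.add (.pp [(1, 11979120000)]) (.mul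
    (.g 18) (.pp [(1, 7388280000)])))) (.mul (.g 0) (.mul (.g 17) (.pp [(1, 1504380000)]))))) (.add
    (.add (.mul (.g 2) (.mul (.g 3) (.pp [(1, 32657400000)]))) (.mul (.g 5) (.pp [(1,
    474126600000)]))) (.add (.mul (.g 10) (.pp [(1, 108271200000)])) (.mul (.g 12) (.pp [(1,
    57334200000)]))))))) (.mul (.g 14) (.add (.add (.add (.mul (.pp [(1, 172500)]) (.sq [(1, -17), (2,
    100), (3, 40), (5, 28), (7, 15), (11, -76), (13, -7), (19, -30), (23, 13)])) (.mul (.pp [(1,
    687660)]) (.sq [(2, 24), (3, 57), (5, -41), (7, -100), (11, -9), (13, -80), (19, 81), (23, 38)])))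
    (.add (.mul (.pp [(1, 87092400000)]) (.sq [(7, -1), (23, 1)])) (.add (.mul (.pp [(1, 5484180)])
    (.sq [(1, -1), (2, 25), (3, -60), (5, -24), (7, -23), (11, -38), (13, 100), (19, 33), (23, -21)]))
    (.mul (.pp [(1, 416340)]) (.sq [(1, 13), (2, -18), (3, 32), (5, 54), (7, 15), (11, 100), (13,
    -25), (19, -39), (23, -34)]))))) (.add (.add (.mul (.g 5) (.add (.pp [(1, 73175400000)]) (.add
    (.mul (.g 2) (.pp [(1, 26014800000)])) (.mul (.g 12) (.pp [(1, 20431800000)]))))) (.mul (.g 12)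
    (.add (.mul (.g 6) (.pp [(1, 13920000000)])) (.mul (.g 22) (.pp [(1, 1224240000)]))))) (.add (.mul
    (.g 18) (.add (.pp [(1, 47009400000)]) (.mul (.g 7) (.pp [(1, 72734400000)])))) (.add (.mul (.g 1)
    (.mul (.g 2) (.pp [(1, 95151000000)]))) (.mul (.g 14) (.pp [(1, 59408400000)])))))))))) (.add
    (.add (.mul (.g 1) (.add (.add (.add (.mul (.pp [(1, 2962380)]) (.sq [(2, 100), (3, 28), (5, 15),
    (7, -71), (11, -85), (13, 55), (19, 2), (23, -89)])) (.mul (.pp [(1, 1369620)]) (.sq [(3, 100),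
    (5, 3), (11, -34), (13, 81), (19, -48), (23, -1)]))) (.add (.mul (.pp [(1, 2400540)]) (.sq [(1,
    -51), (2, 39), (3, -28), (5, -58), (7, 98), (11, 55), (13, 7), (19, 100), (23, 80)])) (.mul (.pp
    [(1, 2305680)]) (.sq [(2, -48), (3, 16), (5, 15), (7, -54), (11, 100), (13, 92), (19, -56), (23,
    -43)])))) (.add (.add (.mul (.pp [(1, 6665040)]) (.sq [(2, -5), (3, 100), (5, -99), (7, 14), (11,
    -86), (13, -32), (19, 42), (23, 66)])) (.mul (.pp [(1, 362100)]) (.sq [(2, 4), (3, 3), (5, 100),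
    (7, -5), (11, -73), (13, -66), (19, -15), (23, -12)]))) (.add (.mul (.g 0) (.add (.pp [(1,
    14248950000)]) (.add (.mul (.g 12) (.pp [(1, 2277300000)])) (.mul (.g 16) (.pp [(1,
    5181870000)]))))) (.add (.mul (.g 7) (.add (.mul (.g 3) (.pp [(1, 219178800000)])) (.mul (.g 18)
    (.pp [(1, 53100600000)])))) (.mul (.g 19) (.pp [(1, 437822400000)]))))))) (.mul (.g 5) (.add (.add
    (.add (.mul (.pp [(1, 585900)]) (.sq [(2, 51), (3, 51), (5, -100), (7, -73), (11, 51), (13, 51),
    (19, 51), (23, -33)])) (.mul (.pp [(1, 1955880)]) (.sq [(1, -75), (2, -59), (3, -41), (11, 100),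
    (13, -71), (19, 70)]))) (.add (.mul (.pp [(1, 2873580)]) (.sq [(2, 82), (3, -100), (5, 1), (7,
    -1), (11, -39), (13, -43)])) (.mul (.pp [(1, 655200)]) (.sq [(2, -73), (3, 41), (5, -4), (7, 100),
    (11, 25), (13, -28), (19, -51), (23, 92)])))) (.add (.add (.mul (.pp [(1, 811380)]) (.sq [(1, -5),
    (2, -16), (3, -7), (5, 12), (7, -47), (11, -67), (13, -60), (19, 100), (23, 48)])) (.mul (.pp [(1,
    1276080)]) (.sq [(2, 38), (3, -9), (5, 8), (7, -100), (11, 73), (13, 55), (19, -42), (23, -26)])))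
    (.add (.mul (.pp [(1, 40800)]) (.sq [(1, -31), (2, -58), (3, -3), (5, -100), (7, 92), (11, 56),
    (13, -14), (19, 73), (23, -1)])) (.add (.mul (.g 18) (.add (.mul (.g 0) (.pp [(1, 4313160000)]))
    (.mul (.g 21) (.pp [(1, 25575600000)])))) (.mul (.g 13) (.pp [(1, 13476600000)])))))))) (.add
    (.mul (.g 18) (.add (.add (.mul (.pp [(1, 3463620)]) (.sq [(2, 43), (3, -83), (5, -97), (7, 90),
    (11, 44), (13, -76), (19, 5), (23, 100)])) (.add (.mul (.pp [(1, 3026880)]) (.sq [(2, 55), (5,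
    18), (7, -100), (11, 40), (13, -99), (19, 57), (23, 33)])) (.mul (.pp [(1, 598440)]) (.sq [(1,
    21), (2, 19), (3, -79), (5, 100), (7, -7), (11, -3), (13, -51), (19, -35), (23, 67)])))) (.add
    (.mul (.pp [(1, 3689220)]) (.sq [(2, 12), (3, -25), (5, -8), (7, -30), (11, 15), (13, -12), (19,
    100), (23, -28)])) (.add (.mul (.pp [(1, 628260)]) (.sq [(2, -100), (5, -94), (7, 7), (11, 57),
    (13, 8), (19, 8), (23, 80)])) (.mul (.g 21) (.add (.pp [(1, 12321240000)]) (.mul (.g 6) (.pp [(1,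
    10105200000)])))))))) (.add (.mul (.g 13) (.add (.add (.mul (.pp [(1, 10981440)]) (.sq [(3, 100),
    (5, 33), (7, -84), (11, 1), (19, 42), (23, 7)])) (.mul (.pp [(1, 3418560)]) (.sq [(2, -5), (3,
    -10), (5, 29), (11, 100), (13, -100), (19, 35), (23, 4)]))) (.add (.mul (.pp [(1, 1333860)]) (.sq
    [(2, 100), (3, 18), (5, -20), (7, -32), (11, 48), (13, 81), (19, 14), (23, -21)])) (.add (.mul
    (.pp [(1, 1688220)]) (.sq [(2, -100), (3, 66), (5, -40), (7, -1), (11, -2), (13, 97), (19, 18)]))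
    (.mul (.g 12) (.add (.mul (.g 6) (.pp [(1, 31366800000)])) (.mul (.g 12) (.pp [(1,
    1557000000)])))))))) (.mul (.g 21) (.add (.add (.mul (.pp [(1, 270816)]) (.sq [(1, -4), (2, -29),
    (3, 15), (5, 18), (7, -4), (11, 3), (13, 100), (19, -12), (23, -16)])) (.mul (.pp [(1, 715188)])
    (.sq [(2, 41), (3, 44), (5, -84), (7, -29), (11, 50), (13, 100), (23, 17)]))) (.add (.mul (.pp
    [(1, 944568)]) (.sq [(2, 80), (5, 100), (7, -16), (11, -86), (13, 6), (19, -41), (23, -43)]))
    (.add (.mul (.pp [(1, 3098352)]) (.sq [(2, 49), (5, -14), (7, 100), (11, 42), (13, -95), (19,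
    -43), (23, -32)])) (.mul (.g 19) (.mul (.g 22) (.pp [(1, 1229688000)]))))))))))) (.add (.add (.add
    (.mul (.g 9) (.add (.add (.mul (.pp [(1, 2682240)]) (.sq [(1, -2), (2, 100), (3, -13), (5, -26),
    (7, 20), (11, 27), (13, 17), (19, -85), (23, 48)])) (.mul (.pp [(1, 3385140)]) (.sq [(1, -32), (2,
    -20), (3, 7), (5, -32), (7, 19), (11, 100), (13, 17), (19, 20), (23, -12)]))) (.add (.mul (.pp
    [(1, 1119060)]) (.sq [(1, 10), (2, -24), (3, -2), (5, 85), (7, -59), (11, 28), (13, 100), (19,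
    -52), (23, -20)])) (.mul (.pp [(1, 778320)]) (.sq [(1, -16), (2, 42), (3, -12), (5, -1), (7, -19),
    (11, -31), (13, 100), (19, -22), (23, 2)]))))) (.mul (.g 3) (.add (.mul (.pp [(1, 154920)]) (.sq
    [(1, 4), (2, 43), (3, 14), (5, 1), (7, 46), (11, -9), (13, -100), (19, -51), (23, 98)])) (.add
    (.mul (.pp [(1, 171840)]) (.sq [(1, -3), (2, -5), (3, -72), (5, -30), (7, 10), (11, 13), (13,
    -15), (19, 100), (23, -66)])) (.mul (.g 6) (.mul (.g 6) (.pp [(1, 111587400000)]))))))) (.add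
    (.mul (.g 22) (.add (.mul (.pp [(1, 1225656)]) (.sq [(2, -78), (3, 100), (7, 1), (11, 59), (23,
    18)])) (.add (.mul (.pp [(1, 261840)]) (.sq [(2, -44), (3, -21), (5, 100), (7, -34), (11, -33),
    (13, 44), (19, 30), (23, -69)])) (.mul (.g 22) (.mul (.g 22) (.pp [(1, 697435200)])))))) (.add
    (.mul (.g 12) (.add (.mul (.pp [(1, 2277120)]) (.sq [(1, 15), (2, 36), (3, -55), (5, 100), (7,
    -37), (11, -40), (13, -12), (19, -20), (23, 26)])) (.mul (.pp [(1, 731880)]) (.sq [(1, -5), (2,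
    -25), (3, 21), (5, 35), (7, 17), (11, 100), (13, -27), (19, 17), (23, -10)])))) (.mul (.g 16)
    (.add (.mul (.pp [(1, 3596160)]) (.sq [(1, 100), (2, 15), (3, 89), (5, -37), (11, 27), (13, -35),
    (19, -97), (23, 37)])) (.mul (.pp [(1, 147780)]) (.sq [(2, -24), (3, -42), (5, 100), (7, -13),
    (11, -11), (13, -17), (19, 10), (23, -13)]))))))) (.add (.add (.mul (.g 19) (.add (.mul (.pp [(1,
    28200)]) (.sq [(1, -52), (2, 15), (3, -2), (5, -97), (7, 13), (11, 31), (13, -46), (19, 100), (23,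
    12)])) (.mul (.pp [(1, 616200)]) (.sq [(1, 100), (3, 67), (11, 11), (13, -44), (19, -100), (23,
    67)])))) (.mul (.g 0) (.mul (.pp [(1, 36531)]) (.sq [(2, -24), (3, -42), (5, 100), (7, -13), (11,
    -11), (13, -17), (19, 10), (23, -13)])))) (.add (.mul (.g 4) (.mul (.pp [(1, 2607060)]) (.sq [(2,
    -11), (5, -100), (7, -66), (11, -2), (13, 9), (19, 71), (23, 7)]))) (.add (.mul (.g 6) (.mul (.pp
    [(1, 1021680)]) (.sq [(1, -12), (2, -41), (3, -70), (5, 97), (7, 100), (11, 24), (13, -86), (19,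
    23), (23, -67)]))) (.mul (.g 7) (.mul (.pp [(1, 231300)]) (.sq [(2, 100), (3, 42), (5, -92), (7,
    57), (11, -55), (13, 1), (19, -50), (23, 48)])))))))) (.pp [(1, 5956131492), (2, 5520144), (3,
    5941740), (4, 6207108), (5, 6196752), (6, 5858736), (7, 5651784), (8, 6168000), (9, 6992220), (10,
    5877816), (11, 5519052), (12, 5993100), (13, 5883060), (14, 6307656), (15, 5820432), (18,
    6316620), (19, 6253272), (20, 5853720), (21, 5645316), (22, 5380632), (23, 5684796), (25,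
    6837912), (26, 6197328), (27, 5770620), (28, 6127140), (30, 5467440), (33, 7717284), (35,
    4449696), (38, 5619816), (39, 6194532), (42, 5885280), (44, 5433640), (45, 5818680), (46,
    6035112), (49, 8142351), (50, 6008760), (52, 5688660), (55, 5520744), (57, 6492984), (63,
    7828980), (65, 6745968), (66, 5688480), (69, 5441340), (70, 6699720), (75, 5964360), (76,
    5988840), (77, 6963090), (78, 6996840), (91, 4470846), (92, 5624520), (95, 5243640), (98,
    7028220), (99, 6665100), (105, 5995920), (110, 6488160), (114, 6064680), (115, 5205096), (117,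
    5035740), (121, 6870411), (125, 6066200), (130, 5952360), (133, 5812044), (138, 6119640), (143,
    5415018), (147, 5465340), (154, 7630320), (161, 4629510), (165, 5637960), (169, 6608811), (171,
    4724940), (175, 7037340), (182, 5071320), (190, 5768280), (195, 5234040), (207, 5970720), (209,
    6245148), (230, 5907600), (231, 6217680), (242, 6327340), (245, 5310480), (247, 6745212), (253,
    6716778), (266, 5166240), (273, 6307080), (275, 5699160), (285, 7125360), (286, 5860800), (299,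
    6555438), (322, 5898720), (325, 5911740), (338, 6174300), (343, 5872480), (345, 5913000), (361,
    5819472), (363, 6989340), (385, 4407600), (399, 6413160), (418, 5141160), (429, 5379720), (437,
    7348284), (455, 5079240), (475, 5162460), (483, 5387400), (494, 6702120), (506, 5820000), (507,
    5667840), (529, 6946431), (539, 7142640), (575, 5481420), (598, 5689200), (605, 5866200), (627,
    5077320), (637, 7498680), (665, 7210560), (715, 5623200), (722, 6610320), (741, 6215400), (759,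
    5634000), (805, 8197080), (845, 6328800), (847, 7129980), (874, 5980080), (897, 6579600), (931,
    5183640), (1001, 7444080), (1045, 7119840), (1058, 5758440), (1083, 5060760), (1127, 5296620),
    (1183, 6929580), (1235, 5862360), (1265, 6227640), (1311, 6391800), (1331, 5553700), (1463,
    4473240), (1495, 6761880), (1573, 4772940), (1587, 6301980), (1729, 4674960), (1771, 2392560),
    (1805, 6214800), (1859, 5853840), (2093, 5532240), (2185, 5772840), (2197, 5582640), (2299,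
    5495520), (2527, 6486180), (2645, 5263560), (2717, 6596880), (2783, 5083500), (3059, 5528760),
    (3211, 5673600), (3289, 5872560), (3703, 5711160), (3887, 5383140), (3971, 5753880), (4693,
    5915700), (4807, 6401640), (5681, 5757720), (5819, 7254480), (6859, 6021720), (6877, 6208260),
    (8303, 6271140), (10051, 5884260), (12167, 6062480)])) (by norm_num)
    (by decide +kernel)

end Pool.Agent.Helper60.TS
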