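import Pool.Agent.Helper20.TS.Ck
import Pool.Agent.Helper83.TS.TallBD

/-!
# Set B2 of the column `b`: lists of constraints and polynomials

`v 2, v 3, v 5` are `x, y, z`; `v 7` is `w`; `v 11` is `s`; `v 13`, `v 17` are `u`, `v`; `v 19`,
`v 23` are `A`, `B`.
-/

set_option autoImplicit false

namespace Pool.Agent.Helper60.TS

open Pool.Agent.Helper83.Cert Pool.Agent.Helper83.TS Pool.Agent.Helper53.TT
  Pool.Agent.Helper74.TS Pool.Agent.Helper20.TS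

/-! ### Pieces -/

/-- the entry `u` of kind B: `0 ≤ u ≤ 1`, `1 - a + d ≤ u` -/
def uBE (D U A : Ex) : List Ex :=
  [U, Ex.sub (Ex.c 1) U, Ex.sub (Ex.sub (Ex.add U A) (Ex.c 1)) D]

theorem uB_nn {Y : ℕ → ℝ} {D U A : Ex} {d u a : ℝ} (hD : exVal Y D = d) (hU : exVal Y U = u)
    (hA : exVal Y A = a) (h0 : 0 ≤ u) (h1 : u ≤ 1) (h2 : 1 - a + d ≤ u) :
    ∀ g ∈ uBE D U A, 0 ≤ exVal Y g := by
  simp only [uBE, List.forall_mem_cons, exadd, exsub, exc, hD, hU, hA]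
  push_cast
  exact ⟨h0, by linarith, by linarith, fun _ hh => absurd hh List.not_mem_nil⟩

/-- the volume is at least `1/10` -/
def fmE (k : ℕ) : List Ex := [Ex.sub (fE k) (Ex.c 60000)]

theorem fm_nn {k : ℕ} {x y z w s u v A B : ℝ} (h : kv k w A B) (hf : 1 / 10 ≤ vl w A B) :
    ∀ g ∈ fmE k, 0 ≤ exVal (yv x y z w s u v A B) g := by
  simp only [fmE, List.forall_mem_cons, exsub, exc, fE_val h]
  push_cast
  exact ⟨by linarith, fun _ hh => absurd hh List.not_mem_nil⟩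

/-- `0 ≤ s ≤ 1`, `1 + s ≤ A`, `A + B ≤ 2 w` -/
def sE : List Ex :=
  [Ex.v 11, Ex.sub (Ex.c 1) (Ex.v 11), Ex.sub (Ex.sub (Ex.v 19) (Ex.c 1)) (Ex.v 11), mE]

theorem sE_nn {x y z w s u v A B : ℝ} (h0 : 0 ≤ s) (h1 : s ≤ 1) (h2 : 1 + s ≤ A)
    (h3 : A + B ≤ 2 * w) : ∀ g ∈ sE, 0 ≤ exVal (yv x y z w s u v A B) g := by
  simp only [sE, List.forall_mem_cons, exsub, exc, exv11, exv19, mE_val]
  push_cast
  exact ⟨h0, by linarith, by linarith, by linarith, fun _ hh => absurd hh List.not_mem_nil⟩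

/-- `1 + w - A - B` -/
def dFE : Ex := Ex.sub (Ex.sub (Ex.add (Ex.c 1) (Ex.v 7)) (Ex.v 19)) (Ex.v 23)

theorem dFE_val (x y z w s u v A B : ℝ) :
    exVal (yv x y z w s u v A B) dFE = 1 + w - A - B := by
  simp only [dFE, exadd, exsub, exc, exv7, exv19, exv23]
  push_cast
  ring

/-- `600000 l (1 + w - A - B - u)` -/
def lBE (L U : Ex) : Ex := Ex.mul (Ex.mul (Ex.c 6) L) (Ex.sub dFE U)

theorem lBE_val {x y z w s u v A B l t : ℝ} {L U : Ex}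
    (hL : exVal (yv x y z w s u v A B) L = 100000 * l)
    (hU : exVal (yv x y z w s u v A B) U = t) :
    exVal (yv x y z w s u v A B) (lBE L U) = 600000 * (l * (1 + w - A - B - t)) := by
  simp only [lBE, exmul, exsub, exc, hL, hU, dFE_val]
  push_cast
  ring

/-- `600000 l (1 + w - A - B)` -/
def lFE (L : Ex) : Ex := Ex.mul (Ex.mul (Ex.c 6) L) dFE

theorem lFE_val {x y z w s u v A B l : ℝ} {L : Ex}
    (hL : exVal (yv x y z w s u v A B) L = 100000 * l) :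
    exVal (yv x y z w s u v A B) (lFE L) = 600000 * (l * (1 + w - A - B)) := by
  simp only [lFE, exmul, exc, hL, dFE_val]
  push_cast
  ring

/-- `600000 s (2 w - A - B)` -/
def smE : Ex := Ex.mul (Ex.mul (Ex.c 600000) (Ex.v 11)) mE

theorem smE_val (x y z w s u v A B : ℝ) :
    exVal (yv x y z w s u v A B) smE = 600000 * (s * (2 * w - A - B)) := by
  simp only [smE, exmul, exc, exv11, mE_val]
  push_cast
  ring

/-! ### The field `p` -/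

/-- the constraints -/
def gPB (k : ℕ) : List Ex :=
  ffE ++ (kE k ++ (uBE (Ex.v 2) (Ex.v 13) (Ex.v 19) ++ (uBE (Ex.v 3) (Ex.v 17) (Ex.v 23) ++
    (fmE k ++ tlE))))

/-- the value -/
def vPB (C1 C2 L1 L2 N : Ex) (k : ℕ) : Ex :=
  Ex.add (Ex.add (Ex.add (Ex.add (Ex.add (stE C1 (Ex.v 2) (Ex.v 13)) (lBE L1 (Ex.v 13)))
    (stE C2 (Ex.v 3) (Ex.v 17))) (lBE L2 (Ex.v 17))) (raE N)) (fE k)

theorem pB_of {x y z c1 c2 l1 l2 n W : ℝ} {C1 C2 L1 L2 N We : Ex} {k : ℕ} (hb : Bd x y z)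
    (h1 : Dt x y z C1 (100000 * c1)) (h2 : Dt x y z C2 (100000 * c2))
    (h3 : Dt x y z L1 (100000 * l1)) (h4 : Dt x y z L2 (100000 * l2))
    (h5 : Dt x y z N (100000 * n)) (h6 : Dt x y z We (100000 * W))
    (ck : Ck (gPB k) (Ex.sub (Ex.mul (Ex.c 6) We) (vPB C1 C2 L1 L2 N k)))
    {w A B u v : ℝ} (hF : FF w A B) (hf : 1 / 10 ≤ vl w A B) (hk : kv k w A B) (u0 : 0 ≤ u)
    (u1 : u ≤ 1) (ua : 1 - A + x ≤ u) (v0 : 0 ≤ v) (v1 : v ≤ 1) (va : 1 - B + y ≤ v) :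
    st c1 x u + l1 * (1 + w - A - B - u) + st c2 y v + l2 * (1 + w - A - B - v) + ra n z w
      + vl w A B ≤ W := by
  have hw : 0 ≤ w := by linarith [hF.w0]
  refine ck.fin (y := yv x y z w 0 u v A B)
    (yv_nonneg hb.x0 hb.y0 hb.z0 hw (le_refl 0) u0 v0 hF.A0 hF.B0) ?_ (h6.h ..) ?_
  · exact nn_append (ff_nn hF) (nn_append (kE_nn hk)
      (nn_append (uB_nn (exv2 ..) (exv13 ..) (exv19 ..) u0 u1 ua)
        (nn_append (uB_nn (exv3 ..) (exv17 ..) (exv23 ..) v0 v1 va)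
          (nn_append (fm_nn hk hf) (tl_nn hb hw _ _ _ _ _)))))
  · simp only [vPB, exadd, stE_val (h1.h ..) (exv2 ..) (exv13 ..), lBE_val (h3.h ..) (exv13 ..),
      stE_val (h2.h ..) (exv3 ..) (exv17 ..), lBE_val (h4.h ..) (exv17 ..), raE_val h5, fE_val hk]
    ring

/-! ### The fields `g1`, `g2` -/

/-- the constraints -/
def gGB : List Ex :=
  ffE ++ (kE 3 ++ (sE ++ (uBE (Ex.v 3) (Ex.v 13) (Ex.v 23) ++ (fmE 3 ++ tlE))))

/-- the value -/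
def vGB (C1 C2 L1 L2 N : Ex) : Ex :=
  Ex.add (Ex.add (Ex.add (Ex.add (Ex.add (Ex.add (mjE (Ex.sub C1 L1) (Ex.sub (Ex.c 1) (Ex.v 2))
    (Ex.v 2) (Ex.v 11)) (lFE L1)) (stE C2 (Ex.v 3) (Ex.v 13))) (lBE L2 (Ex.v 13))) (raE N)) smE)
    (fE 3)

theorem gB_of {x y z c1 c2 l1 l2 n W : ℝ} {C1 C2 L1 L2 N We : Ex} (hb : Bd x y z)
    (h1 : Dt x y z C1 (100000 * c1)) (h2 : Dt x y z C2 (100000 * c2))
    (h3 : Dt x y z L1 (100000 * l1)) (h4 : Dt x y z L2 (100000 * l2))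
    (h5 : Dt x y z N (100000 * n)) (h6 : Dt x y z We (100000 * W))
    (ck : Ck gGB (Ex.sub (Ex.mul (Ex.c 6) We) (vGB C1 C2 L1 L2 N))) :
    GB c1 x c2 y l1 l2 n z W := by
  intro w A B s v hF hf s0 s1 sA hm v0 v1 va
  have hw : 0 ≤ w := by linarith [hF.w0]
  have hk : kv 3 w A B := ⟨by linarith [hF.w1], by linarith [hF.w1]⟩
  refine ck.fin (y := yv x y z w s v 0 A B)
    (yv_nonneg hb.x0 hb.y0 hb.z0 hw s0 v0 (le_refl 0) hF.A0 hF.B0) ?_ (h6.h ..) ?_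
  · exact nn_append (ff_nn hF) (nn_append (kE_nn hk) (nn_append (sE_nn s0 s1 sA hm)
      (nn_append (uB_nn (exv3 ..) (exv13 ..) (exv23 ..) v0 v1 va)
        (nn_append (fm_nn hk hf) (tl_nn hb hw _ _ _ _ _)))))
  · have e1 : exVal (yv x y z w s v 0 A B) (Ex.sub C1 L1) = 100000 * (c1 - l1) := by
      rw [exsub, h1.h, h3.h]; ring
    have e2 : exVal (yv x y z w s v 0 A B) (Ex.sub (Ex.c 1) (Ex.v 2)) = 1 - x := by
      rw [exsub, exc, exv2]; push_cast; ring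
    simp only [vGB, exadd, mjE_val e1 e2 (exv2 ..) (exv11 ..), lFE_val (h3.h ..),
      stE_val (h2.h ..) (exv3 ..) (exv13 ..), lBE_val (h4.h ..) (exv13 ..), raE_val h5, smE_val,
      fE_val hk]
    ring

/-! ### The numbers -/

/-- `100000 n1 x` -/
def nxE : Ex := Ex.add (Ex.c 87842) (Ex.mul (Ex.c (-36220)) (Ex.v 2))

/-- `100000 n1 y` -/
def nyE : Ex := Ex.add (Ex.c 87842) (Ex.mul (Ex.c (-36220)) (Ex.v 3))

/-- `100000 k12 x y` -/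
def kkE : Ex :=
  Ex.add (Ex.add (Ex.c 50719) (Ex.mul (Ex.c (-41358)) (Ex.v 2)))
    (Ex.add (Ex.mul (Ex.c (-41358)) (Ex.v 3)) (Ex.mul (Ex.mul (Ex.c (-2090)) (Ex.v 2)) (Ex.v 3)))

/-- `100000 la x` -/
def lxE : Ex := Ex.add (Ex.c 26938) (Ex.mul (Ex.c 17863) (Ex.v 2))

/-- `100000 la y` -/
def lyE : Ex := Ex.add (Ex.c 26938) (Ex.mul (Ex.c 17863) (Ex.v 3))

/-- `100000 n3 z` -/
def nzE : Ex := Ex.add (Ex.c 84552) (Ex.mul (Ex.c (-68239)) (Ex.v 5))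

/-- `100000 wb2 x y z` -/
def w2E : Ex :=
  Ex.add (Ex.add (Ex.add (Ex.c (-502)) (Ex.mul (Ex.c (-3069)) (Ex.v 2)))
    (Ex.add (Ex.mul (Ex.c (-3069)) (Ex.v 3)) (Ex.mul (Ex.c 168333) (Ex.v 5))))
    (Ex.add (Ex.add (Ex.mul (Ex.mul (Ex.c (-317)) (Ex.v 2)) (Ex.v 2))
      (Ex.add (Ex.mul (Ex.mul (Ex.c (-317)) (Ex.v 3)) (Ex.v 3))
        (Ex.mul (Ex.mul (Ex.c (-70886)) (Ex.v 5)) (Ex.v 5))))
      (Ex.add (Ex.mul (Ex.mul (Ex.c 27120) (Ex.v 2)) (Ex.v 3))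
        (Ex.add (Ex.mul (Ex.mul (Ex.c (-4522)) (Ex.v 2)) (Ex.v 5))
          (Ex.mul (Ex.mul (Ex.c (-4522)) (Ex.v 3)) (Ex.v 5)))))

theorem dnx (x y z : ℝ) : Dt x y z nxE (100000 * TallB.n1 x) :=
  ⟨fun w s u v A B => by simp only [nxE, exadd, exmul, exc, exv2, TallB.n1]; push_cast; ring⟩

theorem dny (x y z : ℝ) : Dt x y z nyE (100000 * TallB.n1 y) :=
  ⟨fun w s u v A B => by simp only [nyE, exadd, exmul, exc, exv3, TallB.n1]; push_cast; ring⟩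

theorem dkk (x y z : ℝ) : Dt x y z kkE (100000 * TallB.k12 x y) :=
  ⟨fun w s u v A B => by
    simp only [kkE, exadd, exmul, exc, exv2, exv3, TallB.k12]; push_cast; ring⟩

theorem dlx (x y z : ℝ) : Dt x y z lxE (100000 * TallB.la x) :=
  ⟨fun w s u v A B => by simp only [lxE, exadd, exmul, exc, exv2, TallB.la]; push_cast; ring⟩

theorem dly (x y z : ℝ) : Dt x y z lyE (100000 * TallB.la y) :=
  ⟨fun w s u v A B => by simp only [lyE, exadd, exmul, exc, exv3, TallB.la]; push_cast; ring⟩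

theorem dnz (x y z : ℝ) : Dt x y z nzE (100000 * TallB.n3 z) :=
  ⟨fun w s u v A B => by simp only [nzE, exadd, exmul, exc, exv5, TallB.n3]; push_cast; ring⟩

theorem dw2 (x y z : ℝ) : Dt x y z w2E (100000 * TallB.wb2 x y z) :=
  ⟨fun w s u v A B => by
    simp only [w2E, exadd, exmul, exc, exv2, exv3, exv5, TallB.wb2]; push_cast; ring⟩

/-- `600000 (W - value)`, field `p` -/
def pPB (k : ℕ) : Ex :=
  Ex.sub (Ex.mul (Ex.c 6) w2E) (vPB (Ex.sub nxE kkE) nyE lxE lyE nzE k)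

/-- `600000 (W - value)`, field `g1` -/
def pG1 : Ex := Ex.sub (Ex.mul (Ex.c 6) w2E) (vGB (Ex.sub nxE kkE) nyE lxE lyE nzE)

/-- `600000 (W - value)`, field `g2` -/
def pG2 : Ex := Ex.sub (Ex.mul (Ex.c 6) w2E) (vGB nxE (Ex.sub nyE kkE) lxE lyE nzE)

end Pool.Agent.Helper60.TS
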